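import Pool.Agent.H7.WSL.Two

/-!
A unit of `wSL_n^sc` which is not a welded pure braid.
-/

namespace Pool.Agent.H7.WSL

open GaussDiagram

variable {n : ℕ}

/-- The signs of the arrows in the chains of diagrams below. -/
def sg (ε : ℤˣ) (a : ℕ) : ℤˣ :=
  if a = 0 then ε else if a = 1 then -ε else if a = 4 ∨ a = 5 ∨ a = 6 ∨ a = 9 then -1 else 1


set_option maxRecDepth 20000 in
/-- The stacked diagram is trivial (`ε = 1`). -/
theorem chain_pos : Eqv n (sg 1) [tl 0, hd 2, hd 0, hd 4, tl 1, hd 3, hd 1, hd 5] [tl 2, tl 4, tl 3, tl 5] [] [] := by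
  refine Eqv.trans (Eqv.symm (step_r2 (L0 := [tl 0, hd 2, hd 0, hd 4, tl 1, hd 3, hd 7, hd 6, hd 1, hd 5])
      (L1 := [tl 2, tl 7, tl 6, tl 4, tl 3, tl 5]) 7 6 (by decide))) (by decide) ?_
  refine Eqv.trans (step_comm (L0' := [tl 0, hd 2, hd 0, hd 4, tl 1, hd 3, hd 7, hd 6, hd 1, hd 5])
      (L1' := [tl 2, tl 7, tl 4, tl 6, tl 3, tl 5]) (tl 4) (tl 6) (by decide)) (by decide) ?_
  refine Eqv.trans (step_r3 (L0' := [tl 0, hd 2, hd 0, tl 1, hd 4, hd 3, hd 7, hd 1, hd 6, hd 5])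
      (L1' := [tl 2, tl 7, tl 6, tl 4, tl 3, tl 5]) 4 6 1 1 (by decide)) (by decide) ?_
  refine Eqv.trans (step_r2 (L0' := [tl 0, hd 2, hd 0, tl 1, hd 7, hd 1, hd 6, hd 5])
      (L1' := [tl 2, tl 7, tl 6, tl 5]) 4 3 (by decide)) (by decide) ?_
  refine Eqv.trans (step_comm (L0' := [tl 0, hd 2, tl 1, hd 0, hd 7, hd 1, hd 6, hd 5])
      (L1' := [tl 2, tl 7, tl 6, tl 5]) (hd 0) (tl 1) (by decide)) (by decide) ?_
  refine Eqv.trans (Eqv.symm (step_r2 (L0 := [tl 0, hd 2, tl 1, hd 0, hd 7, hd 9, hd 8, hd 1, hd 6, hd 5])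
      (L1 := [tl 9, tl 8, tl 2, tl 7, tl 6, tl 5]) 9 8 (by decide))) (by decide) ?_
  refine Eqv.trans (step_r3 (L0' := [tl 0, tl 1, hd 2, hd 0, hd 7, hd 9, hd 1, hd 8, hd 6, hd 5])
      (L1' := [tl 9, tl 2, tl 8, tl 7, tl 6, tl 5]) 2 8 1 (-1) (by decide)) (by decide) ?_
  refine Eqv.trans (step_comm (L0' := [tl 0, tl 1, hd 2, hd 0, hd 7, hd 9, hd 1, hd 8, hd 6, hd 5])
      (L1' := [tl 9, tl 2, tl 7, tl 8, tl 6, tl 5]) (tl 7) (tl 8) (by decide)) (by decide) ?_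
  refine Eqv.trans (step_comm (L0' := [tl 0, tl 1, hd 2, hd 0, hd 7, hd 9, hd 1, hd 8, hd 6, hd 5])
      (L1' := [tl 9, tl 7, tl 2, tl 8, tl 6, tl 5]) (tl 7) (tl 2) (by decide)) (by decide) ?_
  refine Eqv.trans (step_r2 (L0' := [tl 0, tl 1, hd 2, hd 0, hd 1, hd 8, hd 6, hd 5])
      (L1' := [tl 2, tl 8, tl 6, tl 5]) 7 9 (by decide)) (by decide) ?_
  refine Eqv.trans (step_r2 (L0' := [tl 0, tl 1, hd 2, hd 0, hd 1, hd 5])
      (L1' := [tl 2, tl 5]) 8 6 (by decide)) (by decide) ?_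
  refine Eqv.trans (step_r2 (L0' := [hd 2, hd 5])
      (L1' := [tl 2, tl 5]) 0 1 (by decide)) (by decide) ?_
  exact step_r2 (L0' := [])
      (L1' := []) 2 5 (by decide)

set_option maxRecDepth 20000 in
/-- The stacked diagram is trivial (`ε = -1`). -/
theorem chain_neg : Eqv n (sg (-1)) [tl 0, hd 2, hd 0, hd 4, tl 1, hd 3, hd 1, hd 5] [tl 2, tl 4, tl 3, tl 5] [] [] := by
  refine Eqv.trans (Eqv.symm (step_r2 (L0 := [tl 0, hd 2, hd 0, hd 4, tl 1, hd 3, hd 7, hd 6, hd 1, hd 5])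
      (L1 := [tl 2, tl 7, tl 6, tl 4, tl 3, tl 5]) 7 6 (by decide))) (by decide) ?_
  refine Eqv.trans (step_r3 (L0' := [tl 0, hd 2, hd 0, tl 1, hd 4, hd 3, hd 7, hd 1, hd 6, hd 5])
      (L1' := [tl 2, tl 7, tl 4, tl 6, tl 3, tl 5]) 4 6 1 (-1) (by decide)) (by decide) ?_
  refine Eqv.trans (step_comm (L0' := [tl 0, hd 2, hd 0, tl 1, hd 4, hd 3, hd 7, hd 1, hd 6, hd 5])
      (L1' := [tl 2, tl 7, tl 6, tl 4, tl 3, tl 5]) (tl 4) (tl 6) (by decide)) (by decide) ?_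
  refine Eqv.trans (step_r2 (L0' := [tl 0, hd 2, hd 0, tl 1, hd 7, hd 1, hd 6, hd 5])
      (L1' := [tl 2, tl 7, tl 6, tl 5]) 4 3 (by decide)) (by decide) ?_
  refine Eqv.trans (step_comm (L0' := [tl 0, hd 2, tl 1, hd 0, hd 7, hd 1, hd 6, hd 5])
      (L1' := [tl 2, tl 7, tl 6, tl 5]) (hd 0) (tl 1) (by decide)) (by decide) ?_
  refine Eqv.trans (Eqv.symm (step_r2 (L0 := [tl 0, hd 2, tl 1, hd 0, hd 7, hd 9, hd 8, hd 1, hd 6, hd 5])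
      (L1 := [tl 9, tl 8, tl 2, tl 7, tl 6, tl 5]) 9 8 (by decide))) (by decide) ?_
  refine Eqv.trans (step_comm (L0' := [tl 0, hd 2, tl 1, hd 0, hd 7, hd 9, hd 8, hd 1, hd 6, hd 5])
      (L1' := [tl 9, tl 2, tl 8, tl 7, tl 6, tl 5]) (tl 2) (tl 8) (by decide)) (by decide) ?_
  refine Eqv.trans (step_r3 (L0' := [tl 0, tl 1, hd 2, hd 0, hd 7, hd 9, hd 1, hd 8, hd 6, hd 5])
      (L1' := [tl 9, tl 8, tl 2, tl 7, tl 6, tl 5]) 2 8 1 1 (by decide)) (by decide) ?_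
  refine Eqv.trans (step_comm (L0' := [tl 0, tl 1, hd 2, hd 0, hd 7, hd 9, hd 1, hd 8, hd 6, hd 5])
      (L1' := [tl 9, tl 8, tl 7, tl 2, tl 6, tl 5]) (tl 7) (tl 2) (by decide)) (by decide) ?_
  refine Eqv.trans (step_comm (L0' := [tl 0, tl 1, hd 2, hd 0, hd 7, hd 9, hd 1, hd 8, hd 6, hd 5])
      (L1' := [tl 9, tl 7, tl 8, tl 2, tl 6, tl 5]) (tl 7) (tl 8) (by decide)) (by decide) ?_
  refine Eqv.trans (step_r2 (L0' := [tl 0, tl 1, hd 2, hd 0, hd 1, hd 8, hd 6, hd 5])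
      (L1' := [tl 8, tl 2, tl 6, tl 5]) 7 9 (by decide)) (by decide) ?_
  refine Eqv.trans (step_comm (L0' := [tl 0, tl 1, hd 2, hd 0, hd 1, hd 8, hd 6, hd 5])
      (L1' := [tl 2, tl 8, tl 6, tl 5]) (tl 8) (tl 2) (by decide)) (by decide) ?_
  refine Eqv.trans (step_r2 (L0' := [tl 0, tl 1, hd 2, hd 0, hd 1, hd 5])
      (L1' := [tl 2, tl 5]) 8 6 (by decide)) (by decide) ?_
  refine Eqv.trans (step_r2 (L0' := [hd 2, hd 5])
      (L1' := [tl 2, tl 5]) 0 1 (by decide)) (by decide) ?_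
  exact step_r2 (L0' := [])
      (L1' := []) 2 5 (by decide)

end Pool.Agent.H7.WSL
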