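import Pool.Agent.H7.WSL.Inv

/-!
Ends of self-arrows commute with each other and with tails, up to self-crossing changes.
-/

namespace Pool.Agent.H7.WSL

open GaussDiagram

variable {n : ℕ}

namespace GaussDiagram

variable {D D' : GaussDiagram n}

/-- The self-crossing change at the self-arrow `a`. -/
def flip (D : GaussDiagram n) (a : ℕ) (h : D.IsSelf a) : GaussDiagram n where
  strand i := (D.exchange (tl a) (hd a) h).strand i
  sign := fun b => if b = a then -D.sign a else D.sign b
  nodup i := (D.exchange (tl a) (hd a) h).nodup i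
  disjoint := (D.exchange (tl a) (hd a) h).disjoint
  complete := (D.exchange (tl a) (hd a) h).complete

theorem flip_strand (D : GaussDiagram n) (a : ℕ) (h : D.IsSelf a) (i : Fin n) :
    (D.flip a h).strand i = (D.strand i).map (Equiv.swap (tl a) (hd a)) := rfl

theorem flip_sign (D : GaussDiagram n) (a : ℕ) (h : D.IsSelf a) (b : ℕ) :
    (D.flip a h).sign b = if b = a then -D.sign a else D.sign b := rfl

theorem exchange_strand (D : GaussDiagram n) (e f : ArrowEnd) (h : D.Same e f) (i : Fin n) :
    (D.exchange e f h).strand i = (D.strand i).map (Equiv.swap e f) := rfl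

theorem sc_flip (D : GaussDiagram n) (a : ℕ) (h : D.IsSelf a) : SC D (D.flip a h) := by
  refine ⟨a, h, fun _ => rfl, ?_, ?_⟩
  · rw [flip_sign, if_pos rfl]
  · intro b hb
    rw [flip_sign, if_neg hb]

theorem Next.map_swap {e f x y : ArrowEnd} (h : D.Next x y)
    (h' : ∀ i, D'.strand i = (D.strand i).map (Equiv.swap e f)) :
    D'.Next (Equiv.swap e f x) (Equiv.swap e f y) := by
  obtain ⟨i, a, b, h⟩ := h
  refine ⟨i, a.map (Equiv.swap e f), b.map (Equiv.swap e f), ?_⟩
  rw [h' i, h, List.map_append, List.map_cons, List.map_cons]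

theorem Adjacent.map_swap {e f x y : ArrowEnd} (h : D.Adjacent x y)
    (h' : ∀ i, D'.strand i = (D.strand i).map (Equiv.swap e f)) :
    D'.Adjacent (Equiv.swap e f x) (Equiv.swap e f y) :=
  h.imp (fun h => h.map_swap h') (fun h => h.map_swap h')

/-- Conjugation of transpositions. -/
theorem conj_swap (e f g : ArrowEnd) (hge : g ≠ e) (hgf : g ≠ f) (L : List ArrowEnd) :
    ((L.map (Equiv.swap e f)).map (Equiv.swap e g)).map (Equiv.swap e f) =
      L.map (Equiv.swap f g) := by
  rw [List.map_map, List.map_map]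
  apply List.map_congr_left
  intro x _
  have h := Equiv.swap_apply_apply (Equiv.swap e f) e g
  rw [Equiv.swap_apply_left, Equiv.swap_apply_of_ne_of_ne hge hgf, Equiv.swap_inv] at h
  have h2 := congrArg (fun p : Equiv.Perm ArrowEnd => p x) h
  simp only [Equiv.Perm.mul_apply] at h2
  rw [h2]
  rfl

theorem commute_head_tail {a b : ℕ} (hab : a ≠ b) (hadj : D.Adjacent (hd a) (tl b))
    (ha : D.IsSelf a) (h : ∀ i, D'.strand i = (D.strand i).map (Equiv.swap (hd a) (tl b)))
    (hs : D'.sign = D.sign) : Relation.EqvGen Move D D' := by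
  have hba : tl b ≠ tl a := fun h' => hab (congrArg Prod.fst h').symm
  have hba' : tl b ≠ hd a := fun h' => hab (congrArg Prod.fst h').symm
  have hadj1 : (D.flip a ha).Adjacent (tl a) (tl b) := by
    have := hadj.map_swap (D' := D.flip a ha) (fun _ => rfl)
    rwa [Equiv.swap_apply_right, Equiv.swap_apply_of_ne_of_ne hba hba'] at this
  have hoc : OC (D.flip a ha) ((D.flip a ha).exchange (tl a) (tl b) hadj1.same) :=
    ⟨a, b, hab, hadj1, fun _ => rfl, rfl⟩
  have hself : ((D.flip a ha).exchange (tl a) (tl b) hadj1.same).Same (tl a) (hd a) := by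
    rw [same_swap hadj1.same (fun _ => rfl), same_swap (D := D) ha (fun _ => rfl)]
    exact ha
  have hsc : SC ((D.flip a ha).exchange (tl a) (tl b) hadj1.same) D' := by
    refine ⟨a, hself, ?_, ?_, ?_⟩
    · intro i
      rw [h i, exchange_strand, flip_strand, conj_swap _ _ _ hba hba']
    · show D'.sign a = -(D.flip a ha).sign a
      rw [flip_sign, if_pos rfl, hs, neg_neg]
    · intro c hc
      show D'.sign c = (D.flip a ha).sign c
      rw [flip_sign, if_neg hc, hs]
  exact .trans _ _ _ (.rel _ _ (Or.inr (Or.inr (Or.inr (Or.inr (Or.inr (sc_flip D a ha)))))))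
    (.trans _ _ _ (.rel _ _ (Or.inr (Or.inr (Or.inr (Or.inr (Or.inl hoc))))))
      (.rel _ _ (Or.inr (Or.inr (Or.inr (Or.inr (Or.inr hsc)))))))

theorem commute_head_head {a b : ℕ} (hab : a ≠ b) (hadj : D.Adjacent (hd a) (hd b))
    (ha : D.IsSelf a) (hb : D.IsSelf b)
    (h : ∀ i, D'.strand i = (D.strand i).map (Equiv.swap (hd a) (hd b)))
    (hs : D'.sign = D.sign) : Relation.EqvGen Move D D' := by
  have n1 : hd a ≠ tl b := fun h' => hab (congrArg Prod.fst h')
  have n2 : hd a ≠ hd b := fun h' => hab (congrArg Prod.fst h')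
  have hadj1 : (D.flip b hb).Adjacent (hd a) (tl b) := by
    have := hadj.map_swap (D' := D.flip b hb) (fun _ => rfl)
    rwa [Equiv.swap_apply_right, Equiv.swap_apply_of_ne_of_ne n1 n2] at this
  have ha1 : (D.flip b hb).IsSelf a := (same_swap (D := D) hb (fun _ => rfl) _ _).2 ha
  have h1 := commute_head_tail (D := D.flip b hb)
    (D' := (D.flip b hb).exchange (hd a) (tl b) hadj1.same) hab hadj1 ha1 (fun _ => rfl) rfl
  have hself : ((D.flip b hb).exchange (hd a) (tl b) hadj1.same).Same (tl b) (hd b) := by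
    rw [same_swap hadj1.same (fun _ => rfl), same_swap (D := D) hb (fun _ => rfl)]
    exact hb
  have hsc : SC ((D.flip b hb).exchange (hd a) (tl b) hadj1.same) D' := by
    refine ⟨b, hself, ?_, ?_, ?_⟩
    · intro i
      rw [h i, exchange_strand, flip_strand, Equiv.swap_comm (hd a) (tl b),
        conj_swap _ _ _ n1 n2, Equiv.swap_comm]
    · show D'.sign b = -(D.flip b hb).sign b
      rw [flip_sign, if_pos rfl, hs, neg_neg]
    · intro c hc
      show D'.sign c = (D.flip b hb).sign c
      rw [flip_sign, if_neg hc, hs]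
  exact .trans _ _ _ (.rel _ _ (Or.inr (Or.inr (Or.inr (Or.inr (Or.inr (sc_flip D b hb)))))))
    (.trans _ _ _ h1 (.rel _ _ (Or.inr (Or.inr (Or.inr (Or.inr (Or.inr hsc)))))))

/-- Two neighbouring ends of different arrows commute if each of them is a tail or belongs to a
self-arrow. -/
theorem commute {x y : ArrowEnd} (hadj : D.Adjacent x y) (hne : x.1 ≠ y.1)
    (hx : x.2 = false ∨ D.IsSelf x.1) (hy : y.2 = false ∨ D.IsSelf y.1)
    (h : ∀ i, D'.strand i = (D.strand i).map (Equiv.swap x y)) (hs : D'.sign = D.sign) :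
    Relation.EqvGen Move D D' := by
  obtain ⟨a, u⟩ := x
  obtain ⟨b, v⟩ := y
  cases u with
  | false =>
    cases v with
    | false =>
      exact .rel _ _ (Or.inr (Or.inr (Or.inr (Or.inr (Or.inl ⟨a, b, hne, hadj, h, hs⟩)))))
    | true =>
      have hb : D.IsSelf b := hy.resolve_left (by simp)
      refine commute_head_tail (a := b) (b := a) hne.symm hadj.symm hb ?_ hs
      intro i
      rw [h i, Equiv.swap_comm]
  | true =>
    have ha : D.IsSelf a := hx.resolve_left (by simp)
    cases v with
    | false => exact commute_head_tail hne hadj ha h hs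
    | true =>
      have hb : D.IsSelf b := hy.resolve_left (by simp)
      exact commute_head_head hne hadj ha hb h hs

end GaussDiagram

end Pool.Agent.H7.WSL
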