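import Mathlib

/-!
Welded string links up to self-crossing changes, as Gauss diagrams modulo moves.
-/

namespace Pool.Agent.H7.WSL

/-- An end of an arrow of a Gauss diagram. Arrows are labelled by natural numbers; `(a, false)` is
the tail of the arrow `a` (it lies on the over-passing strand), `(a, true)` is its head (on the
under-passing strand). -/
abbrev ArrowEnd := ℕ × Bool

/-- The tail of the arrow `a`. -/
abbrev tl (a : ℕ) : ArrowEnd := (a, false)

/-- The head of the arrow `a`. -/
abbrev hd (a : ℕ) : ArrowEnd := (a, true)

/-- A Gauss diagram on `n` vertical strands oriented upwards: for each strand the list of the arrow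
ends met from bottom to top, and a sign for each arrow. Each end occurs at most once and an arrow
has a tail if and only if it has a head. -/
@[ext]
structure GaussDiagram (n : ℕ) where
  strand : Fin n → List ArrowEnd
  sign : ℕ → ℤˣ
  nodup : ∀ i, (strand i).Nodup
  disjoint : ∀ i j, i ≠ j → ∀ e ∈ strand i, e ∉ strand j
  complete : ∀ a, (∃ i, tl a ∈ strand i) ↔ (∃ i, hd a ∈ strand i)

variable {n : ℕ}

namespace GaussDiagram

/-- The set of (labels of) arrows of a Gauss diagram. -/
def arrows (D : GaussDiagram n) : Set ℕ := {a | ∃ i, tl a ∈ D.strand i}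

/-- The end `e` is immediately below the end `f` on some strand. -/
def Next (D : GaussDiagram n) (e f : ArrowEnd) : Prop :=
  ∃ i l₁ l₂, D.strand i = l₁ ++ e :: f :: l₂

/-- The ends `e` and `f` are neighbours on some strand. -/
def Adjacent (D : GaussDiagram n) (e f : ArrowEnd) : Prop := D.Next e f ∨ D.Next f e

/-- For `ε = 1`: `e` is immediately below `f`; for `ε = -1`: `f` is immediately below `e`. -/
def NextSigned (D : GaussDiagram n) (ε : ℤˣ) (e f : ArrowEnd) : Prop :=
  if ε = 1 then D.Next e f else D.Next f e

/-- The arrow `a` is a self-arrow: both its ends lie on the same strand. -/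
def IsSelf (D : GaussDiagram n) (a : ℕ) : Prop := ∃ i, tl a ∈ D.strand i ∧ hd a ∈ D.strand i

end GaussDiagram

open GaussDiagram

/-- Renaming of the arrows of a Gauss diagram. -/
def Relabel (D D' : GaussDiagram n) : Prop :=
  ∃ f : ℕ → ℕ, Set.InjOn f D.arrows ∧
    (∀ i, D'.strand i = (D.strand i).map (fun e => (f e.1, e.2))) ∧
    ∀ a ∈ D.arrows, D'.sign (f a) = D.sign a

/-- Reidemeister move R1: deletion of an arrow (of any sign and direction) whose two ends are
neighbours. -/
def R1 (D D' : GaussDiagram n) : Prop :=
  ∃ a, D.Adjacent (tl a) (hd a) ∧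
    (∀ i, D'.strand i = (D.strand i).filter (fun e => e.1 ≠ a)) ∧ D'.sign = D.sign

/-- Reidemeister move R2: deletion of two arrows of opposite signs whose tails are neighbours and
whose heads are neighbours. -/
def R2 (D D' : GaussDiagram n) : Prop :=
  ∃ a b, a ≠ b ∧ D.sign b = -D.sign a ∧ D.Adjacent (tl a) (tl b) ∧ D.Adjacent (hd a) (hd b) ∧
    (∀ i, D'.strand i = (D.strand i).filter (fun e => e.1 ≠ a ∧ e.1 ≠ b)) ∧ D'.sign = D.sign

/-- Reidemeister move R3 (all oriented versions). The arrow `x` goes from the top to the middle
piece of strand, `y` from the top to the bottom piece and `z` from the middle to the bottom piece.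
For the three lines in the plane the orders in which they meet the two others are governed by the
signs of the crossings: for some `δ = ± 1`, on the top piece `x` is before `y` iff the product of
their signs is `δ`, on the middle piece `x` is before `z` iff the product of their signs is `δ`,
and on the bottom piece `y` is before `z` iff the product of their signs is `δ`. The move changes
`δ` to `-δ`, i.e. it exchanges the two neighbouring ends on each of the three pieces. -/
def R3 (D D' : GaussDiagram n) : Prop :=
  ∃ x y z, ∃ δ : ℤˣ, x ≠ y ∧ x ≠ z ∧ y ≠ z ∧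
    D.NextSigned (δ * D.sign x * D.sign y) (tl x) (tl y) ∧
    D.NextSigned (δ * D.sign x * D.sign z) (hd x) (tl z) ∧
    D.NextSigned (δ * D.sign y * D.sign z) (hd y) (hd z) ∧
    (∀ i, D'.strand i = (((D.strand i).map (Equiv.swap (tl x) (tl y))).map
      (Equiv.swap (hd x) (tl z))).map (Equiv.swap (hd y) (hd z))) ∧ D'.sign = D.sign

/-- The move Overcrossings Commute: two neighbouring tails are exchanged. -/
def OC (D D' : GaussDiagram n) : Prop :=
  ∃ a b, a ≠ b ∧ D.Adjacent (tl a) (tl b) ∧
    (∀ i, D'.strand i = (D.strand i).map (Equiv.swap (tl a) (tl b))) ∧ D'.sign = D.sign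

/-- Self-crossing change: a self-arrow is reversed and its sign is changed. -/
def SC (D D' : GaussDiagram n) : Prop :=
  ∃ a, D.IsSelf a ∧ (∀ i, D'.strand i = (D.strand i).map (Equiv.swap (tl a) (hd a))) ∧
    D'.sign a = -D.sign a ∧ ∀ b, b ≠ a → D'.sign b = D.sign b

/-- A single move: renaming of arrows, Reidemeister moves, Overcrossings Commute, and self-crossing
changes. (Virtual and mixed Reidemeister moves do not change the Gauss diagram.) -/
def Move (D D' : GaussDiagram n) : Prop :=
  Relabel D D' ∨ R1 D D' ∨ R2 D D' ∨ R3 D D' ∨ OC D D' ∨ SC D D'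

/-- Welded equivalence up to self-crossing changes: the equivalence relation generated by the
moves. -/
def scEquivalence (n : ℕ) : Setoid (GaussDiagram n) := Relation.EqvGen.setoid Move

/-- The set `wSL_n^sc` of welded string links on `n` strands up to self-crossing changes. -/
def WSLsc (n : ℕ) : Type := Quotient (scEquivalence n)

/-- The class of a Gauss diagram. -/
def WSLsc.mk (D : GaussDiagram n) : WSLsc n := Quotient.mk (scEquivalence n) D

/-- The trivial string link. -/
def trivialDiagram (n : ℕ) : GaussDiagram n where
  strand _ := []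
  sign _ := 1
  nodup _ := List.nodup_nil
  disjoint := by simp
  complete := by simp

/-- Relabelling of ends by `a ↦ 2 a`. -/
def ev (e : ArrowEnd) : ArrowEnd := (2 * e.1, e.2)

/-- Relabelling of ends by `a ↦ 2 a + 1`. -/
def od (e : ArrowEnd) : ArrowEnd := (2 * e.1 + 1, e.2)

theorem ev_inj : Function.Injective ev := by
  rintro ⟨a, b⟩ ⟨c, d⟩ h
  simp only [ev, Prod.mk.injEq] at h
  ext
  · show a = c
    omega
  · exact h.2

theorem od_inj : Function.Injective od := by
  rintro ⟨a, b⟩ ⟨c, d⟩ h
  simp only [od, Prod.mk.injEq] at h
  ext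
  · show a = c
    omega
  · exact h.2

theorem ev_ne_od (e f : ArrowEnd) : ev e ≠ od f := by
  intro h
  have := congrArg Prod.fst h
  simp only [ev, od] at this
  omega

/-- Stacking: `stack D E` is `D` with `E` on top of it. The arrows are renamed so that the labels
of `D` become even and those of `E` odd. -/
def stack (D E : GaussDiagram n) : GaussDiagram n where
  strand i := (D.strand i).map ev ++ (E.strand i).map od
  sign a := if a % 2 = 0 then D.sign (a / 2) else E.sign (a / 2)
  nodup i := by
    rw [List.nodup_append]
    refine ⟨(D.nodup i).map ev_inj, (E.nodup i).map od_inj, ?_⟩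
    intro a ha b hb
    rw [List.mem_map] at ha hb
    obtain ⟨e, -, rfl⟩ := ha
    obtain ⟨f, -, rfl⟩ := hb
    exact ev_ne_od e f
  disjoint i j hij e he he' := by
    rw [List.mem_append, List.mem_map, List.mem_map] at he he'
    rcases he with ⟨f, hf, rfl⟩ | ⟨f, hf, rfl⟩
    · rcases he' with ⟨g, hg, h⟩ | ⟨g, hg, h⟩
      · exact D.disjoint i j hij f hf (ev_inj h ▸ hg)
      · exact ev_ne_od f g h.symm
    · rcases he' with ⟨g, hg, h⟩ | ⟨g, hg, h⟩
      · exact ev_ne_od g f h
      · exact E.disjoint i j hij f hf (od_inj h ▸ hg)
  complete a := by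
    simp only [List.mem_append, List.mem_map]
    have hev : ∀ (b : Bool) (L : List ArrowEnd),
        (∃ e ∈ L, ev e = (a, b)) ↔ (a % 2 = 0 ∧ (a / 2, b) ∈ L) := by
      intro b L
      constructor
      · rintro ⟨⟨c, d⟩, h1, h2⟩
        simp only [ev, Prod.mk.injEq] at h2
        obtain ⟨h2, rfl⟩ := h2
        have : c = a / 2 := by omega
        subst this
        exact ⟨by omega, h1⟩
      · rintro ⟨h1, h2⟩
        exact ⟨_, h2, by simp only [ev, Prod.mk.injEq, and_true]; omega⟩
    have hod : ∀ (b : Bool) (L : List ArrowEnd),
        (∃ e ∈ L, od e = (a, b)) ↔ (a % 2 = 1 ∧ (a / 2, b) ∈ L) := by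
      intro b L
      constructor
      · rintro ⟨⟨c, d⟩, h1, h2⟩
        simp only [od, Prod.mk.injEq] at h2
        obtain ⟨h2, rfl⟩ := h2
        have : c = a / 2 := by omega
        subst this
        exact ⟨by omega, h1⟩
      · rintro ⟨h1, h2⟩
        exact ⟨_, h2, by simp only [od, Prod.mk.injEq, and_true]; omega⟩
    simp only [hev, hod, exists_or, exists_and_left, tl, hd]
    have h1 := D.complete (a / 2)
    have h2 := E.complete (a / 2)
    simp only [tl, hd] at h1 h2
    rw [h1, h2]

/-- A Gauss diagram is monotone if there are heights for its arrows which increase strictly along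
every strand; these are the Gauss diagrams of the monotone string link diagrams (all arrows can be
drawn horizontally). -/
def Monotone (D : GaussDiagram n) : Prop :=
  ∃ h : ℕ → ℕ, ∀ i, (D.strand i).Pairwise (fun e f => h e.1 < h f.1)

end Pool.Agent.H7.WSL
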