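import Pool.Agent.H7.WSL.Val

/-!
The invariant is additive under stacking.
-/

namespace Pool.Agent.H7.WSL

open GaussDiagram

variable {n : ℕ}

namespace GaussDiagram

variable {D D' E : GaussDiagram n}

theorem ord_of_below {x y : ArrowEnd} (h : D.Below x y) : D.ord x y = 1 := by
  have h' : ¬ D.Below y x := by
    obtain ⟨i, hi⟩ := h
    have hx : x ∈ D.strand i := hi.subset (by simp)
    obtain ⟨a, b, hab⟩ := List.append_of_mem hx
    have h1 : y ∈ b := (below_iff_right hab y).1 ⟨i, hi⟩
    rw [below_iff_left hab]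
    have hnd := D.nodup i
    rw [hab, List.nodup_append] at hnd
    intro h2
    exact hnd.2.2 y h2 y (List.mem_cons_of_mem _ h1) rfl
  unfold ord
  rw [if_pos h, if_neg h']
  ring

theorem c2_symm (D : GaussDiagram n) (a b : ℕ) : D.c2 a b = D.c2 b a := by
  unfold c2
  congr 1
  apply propext
  constructor
  · rintro ⟨h1, h2, h3⟩
    exact ⟨h2.symm, h1.symm, fun h4 => h3 ((h1.trans h4.symm).trans h2.symm)⟩
  · rintro ⟨h1, h2, h3⟩
    exact ⟨h2.symm, h1.symm, fun h4 => h3 ((h1.trans h4.symm).trans h2.symm)⟩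

theorem filter_even_stack (D E : GaussDiagram n) (i : Fin n) :
    (stack D (trivialDiagram n)).strand i =
      ((stack D E).strand i).filter (fun e => e.1 % 2 = 0) := by
  simp only [stack, trivialDiagram, List.map_nil, List.append_nil, List.filter_append]
  have h1 : ((D.strand i).map ev).filter (fun e => e.1 % 2 = 0) = (D.strand i).map ev := by
    rw [List.filter_eq_self]
    intro e he
    rw [List.mem_map] at he
    obtain ⟨f, -, rfl⟩ := he
    simp [ev]
  have h2 : ((E.strand i).map od).filter (fun e => e.1 % 2 = 0) = [] := by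
    rw [List.filter_eq_nil_iff]
    intro e he
    rw [List.mem_map] at he
    obtain ⟨f, -, rfl⟩ := he
    simp [od]
  rw [h1, h2, List.append_nil]

theorem filter_odd_stack (D E : GaussDiagram n) (i : Fin n) :
    (stack (trivialDiagram n) E).strand i =
      ((stack D E).strand i).filter (fun e => e.1 % 2 = 1) := by
  simp only [stack, trivialDiagram, List.map_nil, List.nil_append, List.filter_append]
  have h1 : ((D.strand i).map ev).filter (fun e => e.1 % 2 = 1) = [] := by
    rw [List.filter_eq_nil_iff]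
    intro e he
    rw [List.mem_map] at he
    obtain ⟨f, -, rfl⟩ := he
    simp [ev]
  have h2 : ((E.strand i).map od).filter (fun e => e.1 % 2 = 1) = (E.strand i).map od := by
    rw [List.filter_eq_self]
    intro e he
    rw [List.mem_map] at he
    obtain ⟨f, -, rfl⟩ := he
    exact decide_eq_true (show (2 * f.1 + 1) % 2 = 1 by omega)
  rw [h1, h2, List.nil_append]

theorem k_stack_even (E : GaussDiagram n) {a b : ℕ} (ha : a ∈ D.arr) (hb : b ∈ D.arr) :
    (stack D E).k (2 * a) (2 * b) = D.k a b := by
  have h1 := k_filter (D := stack D E) (D' := stack D (trivialDiagram n))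
    (p := fun e => e.1 % 2 = 0) (filter_even_stack D E) (a := 2 * a) (b := 2 * b)
    (show (2 * a) % 2 = 0 by omega) (show (2 * a) % 2 = 0 by omega)
    (show (2 * b) % 2 = 0 by omega) (show (2 * b) % 2 = 0 by omega)
  have h2 := k_relabel (D := D) (D' := stack D (trivialDiagram n)) (f := fun a => 2 * a)
    (by
      intro x _ y _ hxy
      simpa using hxy)
    (by
      intro i
      simp [stack, trivialDiagram, ev]) ha hb
  rw [← h1]
  exact h2

theorem k_stack_odd (D : GaussDiagram n) {a b : ℕ} (ha : a ∈ E.arr) (hb : b ∈ E.arr) :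
    (stack D E).k (2 * a + 1) (2 * b + 1) = E.k a b := by
  have h1 := k_filter (D := stack D E) (D' := stack (trivialDiagram n) E)
    (p := fun e => e.1 % 2 = 1) (filter_odd_stack D E) (a := 2 * a + 1) (b := 2 * b + 1)
    (show (2 * a + 1) % 2 = 1 by omega) (show (2 * a + 1) % 2 = 1 by omega)
    (show (2 * b + 1) % 2 = 1 by omega) (show (2 * b + 1) % 2 = 1 by omega)
  have h2 := k_relabel (D := E) (D' := stack (trivialDiagram n) E) (f := fun a => 2 * a + 1)
    (by
      intro x _ y _ hxy
      simpa using hxy)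
    (by
      intro i
      simp [stack, trivialDiagram, od]) ha hb
  rw [← h1]
  exact h2

/-- An end of the lower diagram is below an end of the upper diagram. -/
theorem ord_cross {a b : ℕ} {u v : Bool} (h : (stack D E).Same (2 * a, u) (2 * b + 1, v)) :
    (stack D E).ord (2 * a, u) (2 * b + 1, v) = 1 := by
  apply ord_of_below
  obtain ⟨i, h1, h2⟩ := h
  refine ⟨i, ?_⟩
  simp only [stack, List.mem_append, mem_map_ev, mem_map_od] at h1 h2 ⊢
  have h1' : (2 * a, u) ∈ (D.strand i).map ev := by
    rw [mem_map_ev]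
    rcases h1 with h1 | h1
    · exact h1
    · omega
  have h2' : (2 * b + 1, v) ∈ (E.strand i).map od := by
    rw [mem_map_od]
    rcases h2 with h2 | h2
    · omega
    · exact h2
  exact (List.singleton_sublist.2 h1').append (List.singleton_sublist.2 h2')

theorem ord_cross' {a b : ℕ} {u v : Bool} (h : (stack D E).Same (2 * b + 1, v) (2 * a, u)) :
    (stack D E).ord (2 * b + 1, v) (2 * a, u) = -1 := by
  rw [ord_symm, ord_cross h.symm]

theorem k_cross (D E : GaussDiagram n) (a b : ℕ) :
    (stack D E).k (2 * a) (2 * b + 1) + (stack D E).k (2 * b + 1) (2 * a) = 0 := by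
  have h1 : (stack D E).c1 (2 * a) (2 * b + 1) * ((stack D E).ord (tl (2 * a)) (hd (2 * b + 1)) +
      (stack D E).ord (hd (2 * b + 1)) (hd (2 * a))) = 0 := by
    by_cases h : (stack D E).Same (tl (2 * a)) (hd (2 * a)) ∧
        (stack D E).Same (hd (2 * a)) (hd (2 * b + 1)) ∧
        ¬ (stack D E).Same (tl (2 * b + 1)) (hd (2 * b + 1))
    · rw [ord_cross (h.1.trans h.2.1), ord_cross' h.2.1.symm]
      ring
    · unfold c1
      rw [ind_neg h]
      ring
  have h2 : (stack D E).c1 (2 * b + 1) (2 * a) * ((stack D E).ord (tl (2 * b + 1)) (hd (2 * a)) +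
      (stack D E).ord (hd (2 * a)) (hd (2 * b + 1))) = 0 := by
    by_cases h : (stack D E).Same (tl (2 * b + 1)) (hd (2 * b + 1)) ∧
        (stack D E).Same (hd (2 * b + 1)) (hd (2 * a)) ∧
        ¬ (stack D E).Same (tl (2 * a)) (hd (2 * a))
    · rw [ord_cross' (h.1.trans h.2.1), ord_cross h.2.1.symm]
      ring
    · unfold c1
      rw [ind_neg h]
      ring
  have h3 : (stack D E).c2 (2 * a) (2 * b + 1) * ((stack D E).ord (hd (2 * a)) (tl (2 * b + 1)) +
      (stack D E).ord (hd (2 * b + 1)) (tl (2 * a))) = 0 := by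
    by_cases h : (stack D E).Same (tl (2 * a)) (hd (2 * b + 1)) ∧
        (stack D E).Same (hd (2 * a)) (tl (2 * b + 1)) ∧ ¬ (stack D E).Same (tl (2 * a)) (hd (2 * a))
    · rw [ord_cross h.2.1, ord_cross' h.1.symm]
      ring
    · unfold c2
      rw [ind_neg h]
      ring
  unfold k
  rw [c2_symm _ (2 * b + 1) (2 * a)]
  linear_combination h1 + h2 + h3

theorem val_stack (D E : GaussDiagram n) : (stack D E).val = D.val + E.val := by
  have harr : (stack D E).arr =
      D.arr.image (fun a => 2 * a) ∪ E.arr.image (fun a => 2 * a + 1) := by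
    ext a
    rw [mem_arr_tl, Finset.mem_union, Finset.mem_image, Finset.mem_image]
    have := arrows_stack D E a
    change (∃ i, tl a ∈ (stack D E).strand i) ↔ _ at this
    rw [this]
    constructor
    · rintro (⟨h1, h2⟩ | ⟨h1, h2⟩)
      · exact Or.inl ⟨a / 2, (D.mem_arr_tl _).2 h2, by omega⟩
      · exact Or.inr ⟨a / 2, (E.mem_arr_tl _).2 h2, by omega⟩
    · rintro (⟨c, h1, rfl⟩ | ⟨c, h1, rfl⟩)
      · refine Or.inl ⟨by omega, ?_⟩
        rw [show 2 * c / 2 = c by omega]
        exact (D.mem_arr_tl _).1 h1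
      · refine Or.inr ⟨by omega, ?_⟩
        rw [show (2 * c + 1) / 2 = c by omega]
        exact (E.mem_arr_tl _).1 h1
  have hdisj : Disjoint (D.arr.image (fun a => 2 * a)) (E.arr.image (fun a => 2 * a + 1)) := by
    rw [Finset.disjoint_left]
    intro x hx hx'
    rw [Finset.mem_image] at hx hx'
    obtain ⟨c, -, rfl⟩ := hx
    obtain ⟨d, -, hd'⟩ := hx'
    omega
  have inj1 : Set.InjOn (fun a : ℕ => 2 * a) D.arr := by
    intro x _ y _ hxy
    simpa using hxy
  have inj2 : Set.InjOn (fun a : ℕ => 2 * a + 1) E.arr := by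
    intro x _ y _ hxy
    simpa using hxy
  have sgE : ∀ a, (stack D E).sign (2 * a) = D.sign a := by
    intro a
    show (if (2 * a) % 2 = 0 then _ else _) = _
    rw [if_pos (by omega), show 2 * a / 2 = a by omega]
  have sgO : ∀ a, (stack D E).sign (2 * a + 1) = E.sign a := by
    intro a
    show (if (2 * a + 1) % 2 = 0 then _ else _) = _
    rw [if_neg (by omega), show (2 * a + 1) / 2 = a by omega]
  have hcross : (∑ a ∈ D.arr, ∑ b ∈ E.arr, (D.sign a : ℤ) * E.sign b *
        (stack D E).k (2 * a) (2 * b + 1)) +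
      ∑ b ∈ E.arr, ∑ a ∈ D.arr, (E.sign b : ℤ) * D.sign a *
        (stack D E).k (2 * b + 1) (2 * a) = 0 := by
    rw [Finset.sum_comm (s := E.arr), ← Finset.sum_add_distrib]
    apply Finset.sum_eq_zero
    intro a _
    rw [← Finset.sum_add_distrib]
    apply Finset.sum_eq_zero
    intro b _
    have := k_cross D E a b
    linear_combination (D.sign a : ℤ) * E.sign b * this
  have e1 : (∑ a ∈ D.arr, ∑ b ∈ D.arr, (D.sign a : ℤ) * D.sign b *
      (stack D E).k (2 * a) (2 * b)) = D.val := by
    unfold val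
    apply Finset.sum_congr rfl
    intro a ha
    apply Finset.sum_congr rfl
    intro b hb
    rw [k_stack_even E ha hb]
  have e2 : (∑ a ∈ E.arr, ∑ b ∈ E.arr, (E.sign a : ℤ) * E.sign b *
      (stack D E).k (2 * a + 1) (2 * b + 1)) = E.val := by
    unfold val
    apply Finset.sum_congr rfl
    intro a ha
    apply Finset.sum_congr rfl
    intro b hb
    rw [k_stack_odd D ha hb]
  have expand : (stack D E).val =
      (∑ a ∈ D.arr, ∑ b ∈ D.arr, (D.sign a : ℤ) * D.sign b * (stack D E).k (2 * a) (2 * b)) +
      (∑ a ∈ D.arr, ∑ b ∈ E.arr, (D.sign a : ℤ) * E.sign b *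
        (stack D E).k (2 * a) (2 * b + 1)) +
      ((∑ b ∈ E.arr, ∑ a ∈ D.arr, (E.sign b : ℤ) * D.sign a *
        (stack D E).k (2 * b + 1) (2 * a)) +
      (∑ a ∈ E.arr, ∑ b ∈ E.arr, (E.sign a : ℤ) * E.sign b *
        (stack D E).k (2 * a + 1) (2 * b + 1))) := by
    unfold val
    rw [harr, Finset.sum_union hdisj, Finset.sum_image inj1, Finset.sum_image inj2,
      ← Finset.sum_add_distrib, ← Finset.sum_add_distrib]
    congr 1
    · apply Finset.sum_congr rfl
      intro a _
      rw [Finset.sum_union hdisj, Finset.sum_image inj1, Finset.sum_image inj2]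
      simp only [sgE, sgO]
    · apply Finset.sum_congr rfl
      intro a _
      rw [Finset.sum_union hdisj, Finset.sum_image inj1, Finset.sum_image inj2]
      simp only [sgE, sgO]
  rw [expand, e1, e2]
  linear_combination hcross

end GaussDiagram

/-- The invariant as a homomorphism of monoids. -/
noncomputable def valHom (n : ℕ) : WSLsc n →* Multiplicative ℤ where
  toFun := Quotient.lift (fun D => Multiplicative.ofAdd D.val)
    (fun _ _ h => congrArg Multiplicative.ofAdd (val_eqv h).symm)
  map_one' := by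
    show Multiplicative.ofAdd (trivialDiagram n).val = 1
    have : (trivialDiagram n).val = 0 := by
      apply val_monotone
      exact ⟨fun _ => 0, fun i => List.Pairwise.nil⟩
    rw [this]
    rfl
  map_mul' := by
    rintro ⟨D⟩ ⟨E⟩
    show Multiplicative.ofAdd (stack D E).val = _
    rw [val_stack]
    rfl

theorem valHom_mk (D : GaussDiagram n) :
    valHom n (WSLsc.mk D) = Multiplicative.ofAdd D.val := rfl

theorem valHom_pureBraids {x : WSLsc n} (h : x ∈ pureBraids n) : valHom n x = 1 := by
  obtain ⟨D, hD, rfl⟩ := h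
  rw [valHom_mk, val_monotone hD]
  rfl

end Pool.Agent.H7.WSL
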