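import Pool.Agent.H7.WSL.Mul

/-!
An integer invariant of welded string links up to self-crossing changes which vanishes on
monotone diagrams.
-/

namespace Pool.Agent.H7.WSL

open GaussDiagram

variable {n : ℕ}

theorem sub_left_iff {L : List ArrowEnd} {a b : List ArrowEnd} {e x : ArrowEnd} (hL : L.Nodup)
    (h : L = a ++ e :: b) : [x, e].Sublist L ↔ x ∈ a := by
  subst h
  induction a with
  | nil =>
    simp only [List.nil_append, List.not_mem_nil, iff_false]
    simp only [List.nil_append, List.nodup_cons] at hL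
    intro h
    cases h with
    | cons _ h => exact hL.1 (h.subset (by simp))
    | cons_cons _ h => exact hL.1 (h.subset (by simp))
  | cons c a ih =>
    simp only [List.cons_append, List.nodup_cons] at hL
    rw [List.cons_append, List.mem_cons]
    constructor
    · intro h
      cases h with
      | cons _ h => exact Or.inr ((ih hL.2).1 h)
      | cons_cons _ h => exact Or.inl rfl
    · rintro (rfl | h)
      · exact List.Sublist.cons_cons _ (by simp)
      · exact List.Sublist.cons _ ((ih hL.2).2 h)

theorem sub_right_iff {L : List ArrowEnd} {a b : List ArrowEnd} {e x : ArrowEnd} (hL : L.Nodup)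
    (h : L = a ++ e :: b) : [e, x].Sublist L ↔ x ∈ b := by
  subst h
  induction a with
  | nil =>
    simp only [List.nil_append, List.nodup_cons] at hL
    rw [List.nil_append]
    constructor
    · intro h
      cases h with
      | cons _ h => exact absurd (h.subset (by simp)) hL.1
      | cons_cons _ h => simpa using h
    · intro h
      exact List.Sublist.cons_cons _ (by simpa using h)
  | cons c a ih =>
    simp only [List.cons_append, List.nodup_cons] at hL
    rw [List.cons_append]
    constructor
    · intro h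
      cases h with
      | cons _ h => exact (ih hL.2).1 h
      | cons_cons _ h => exact absurd (by simp) hL.1
    · intro h
      exact List.Sublist.cons _ ((ih hL.2).2 h)

namespace GaussDiagram

/-- `e` is below `f` on some strand. -/
def Below (D : GaussDiagram n) (e f : ArrowEnd) : Prop := ∃ i, [e, f].Sublist (D.strand i)

/-- `e` and `f` lie on the same strand. -/
def Same (D : GaussDiagram n) (e f : ArrowEnd) : Prop := ∃ i, e ∈ D.strand i ∧ f ∈ D.strand i

open Classical in
/-- The order of two ends: `1` if `e` is below `f`, `-1` if `f` is below `e`. -/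
noncomputable def ord (D : GaussDiagram n) (e f : ArrowEnd) : ℤ :=
  (if D.Below e f then 1 else 0) - (if D.Below f e then 1 else 0)

variable {D D' : GaussDiagram n}

theorem ord_symm (D : GaussDiagram n) (e f : ArrowEnd) : D.ord f e = -D.ord e f := by
  unfold ord
  ring

theorem eq_of_mem (D : GaussDiagram n) {i j : Fin n} {e : ArrowEnd} (h : e ∈ D.strand i)
    (h' : e ∈ D.strand j) : i = j := by
  by_contra hij
  exact D.disjoint i j hij e h h'

theorem below_iff_left {i : Fin n} {a b : List ArrowEnd} {e : ArrowEnd}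
    (h : D.strand i = a ++ e :: b) (x : ArrowEnd) : D.Below x e ↔ x ∈ a := by
  constructor
  · rintro ⟨j, hj⟩
    have h1 : e ∈ D.strand j := hj.subset (by simp)
    have h2 : e ∈ D.strand i := by rw [h]; simp
    obtain rfl := D.eq_of_mem h1 h2
    exact (sub_left_iff (D.nodup j) h).1 hj
  · intro hx
    exact ⟨i, (sub_left_iff (D.nodup i) h).2 hx⟩

theorem below_iff_right {i : Fin n} {a b : List ArrowEnd} {e : ArrowEnd}
    (h : D.strand i = a ++ e :: b) (x : ArrowEnd) : D.Below e x ↔ x ∈ b := by
  constructor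
  · rintro ⟨j, hj⟩
    have h1 : e ∈ D.strand j := hj.subset (by simp)
    have h2 : e ∈ D.strand i := by rw [h]; simp
    obtain rfl := D.eq_of_mem h1 h2
    exact (sub_right_iff (D.nodup j) h).1 hj
  · intro hx
    exact ⟨i, (sub_right_iff (D.nodup i) h).2 hx⟩

theorem same_iff {i : Fin n} {e : ArrowEnd} (h : e ∈ D.strand i) (x : ArrowEnd) :
    D.Same x e ↔ x ∈ D.strand i := by
  constructor
  · rintro ⟨j, h1, h2⟩
    obtain rfl := D.eq_of_mem h2 h
    exact h1
  · intro h1
    exact ⟨i, h1, h⟩

theorem same_comm (D : GaussDiagram n) (e f : ArrowEnd) : D.Same e f ↔ D.Same f e := by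
  unfold Same
  constructor <;> rintro ⟨i, h1, h2⟩ <;> exact ⟨i, h2, h1⟩

theorem Same.trans {e f g : ArrowEnd} (h : D.Same e f) (h' : D.Same f g) : D.Same e g := by
  obtain ⟨i, h1, h2⟩ := h
  obtain ⟨j, h3, h4⟩ := h'
  obtain rfl := D.eq_of_mem h2 h3
  exact ⟨i, h1, h4⟩

theorem Same.symm {e f : ArrowEnd} (h : D.Same e f) : D.Same f e := (D.same_comm e f).1 h

theorem Next.same {e f : ArrowEnd} (h : D.Next e f) : D.Same e f := by
  obtain ⟨i, a, b, h⟩ := h
  exact ⟨i, by rw [h]; simp, by rw [h]; simp⟩

theorem Adjacent.same {e f : ArrowEnd} (h : D.Adjacent e f) : D.Same e f :=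
  h.elim Next.same (fun h => h.same.symm)

theorem Adjacent.symm {e f : ArrowEnd} (h : D.Adjacent e f) : D.Adjacent f e := Or.symm h

theorem Next.ne {e f : ArrowEnd} (h : D.Next e f) : e ≠ f := by
  obtain ⟨i, a, b, h⟩ := h
  have := D.nodup i
  rw [h, List.nodup_append] at this
  rintro rfl
  simp at this

theorem Adjacent.ne {e f : ArrowEnd} (h : D.Adjacent e f) : e ≠ f :=
  h.elim Next.ne (fun h => h.ne.symm)

theorem Next.ord_eq {e f : ArrowEnd} (h : D.Next e f) : D.ord e f = 1 := by
  have hne := h.ne
  obtain ⟨i, a, b, h⟩ := h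
  have hnd := D.nodup i
  unfold ord
  rw [if_pos ((below_iff_right h f).2 (by simp)), if_neg]
  · simp
  · rw [below_iff_left h f]
    rw [h, List.nodup_append] at hnd
    intro hf
    exact hnd.2.2 f hf f (by simp) rfl

theorem Next.ord_left {e f : ArrowEnd} (h : D.Next e f) {x : ArrowEnd} (h1 : x ≠ e) (h2 : x ≠ f) :
    D.ord x e = D.ord x f := by
  obtain ⟨i, a, b, h⟩ := h
  have h' : D.strand i = (a ++ [e]) ++ f :: b := by rw [h]; simp
  unfold ord
  have e1 : D.Below x e ↔ D.Below x f := by
    rw [below_iff_left h, below_iff_left h']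
    simp [h1]
  have e2 : D.Below e x ↔ D.Below f x := by
    rw [below_iff_right h, below_iff_right h']
    simp [h2]
  rw [propext e1, propext e2]

theorem Adjacent.ord_left {e f : ArrowEnd} (h : D.Adjacent e f) {x : ArrowEnd} (h1 : x ≠ e)
    (h2 : x ≠ f) : D.ord x e = D.ord x f :=
  h.elim (fun h => h.ord_left h1 h2) (fun h => (h.ord_left h2 h1).symm)

theorem Adjacent.ord_right {e f : ArrowEnd} (h : D.Adjacent e f) {x : ArrowEnd} (h1 : x ≠ e)
    (h2 : x ≠ f) : D.ord e x = D.ord f x := by
  rw [D.ord_symm x e, D.ord_symm x f, h.ord_left h1 h2]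

theorem NextSigned.adjacent {ε : ℤˣ} {e f : ArrowEnd} (h : D.NextSigned ε e f) :
    D.Adjacent e f := by
  unfold NextSigned at h
  split_ifs at h
  · exact Or.inl h
  · exact Or.inr h

theorem NextSigned.ord_eq {ε : ℤˣ} {e f : ArrowEnd} (h : D.NextSigned ε e f) :
    D.ord e f = (ε : ℤ) := by
  unfold NextSigned at h
  rcases Int.units_eq_one_or ε with rfl | rfl
  · rw [if_pos rfl] at h
    rw [h.ord_eq]
    rfl
  · rw [if_neg (by decide)] at h
    rw [D.ord_symm f e, h.ord_eq]
    rfl

theorem ord_self (D : GaussDiagram n) (e : ArrowEnd) : D.ord e e = 0 := by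
  unfold ord
  ring

theorem Same.self_left {e f : ArrowEnd} (h : D.Same e f) : D.Same e e := h.trans h.symm

section exchange

variable {σ : Equiv.Perm ArrowEnd}

theorem below_map (hσ : ∀ x, σ (σ x) = x) (h : ∀ i, D'.strand i = (D.strand i).map σ)
    (x y : ArrowEnd) : D'.Below x y ↔ D.Below (σ x) (σ y) := by
  unfold Below
  apply exists_congr
  intro i
  rw [h i]
  constructor
  · intro h1
    have h2 := h1.map σ
    rw [List.map_map] at h2
    have h3 : (σ ∘ σ : ArrowEnd → ArrowEnd) = id := funext hσ
    rw [h3, List.map_id] at h2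
    exact h2
  · intro h1
    have h2 := h1.map σ
    simpa [hσ] using h2

theorem same_map (hσ : ∀ x, σ (σ x) = x) (h : ∀ i, D'.strand i = (D.strand i).map σ)
    (x y : ArrowEnd) : D'.Same x y ↔ D.Same (σ x) (σ y) := by
  unfold Same
  apply exists_congr
  intro i
  rw [h i]
  have h1 : ∀ z, z ∈ (D.strand i).map σ ↔ σ z ∈ D.strand i := by
    intro z
    rw [List.mem_map]
    constructor
    · rintro ⟨w, hw, rfl⟩
      rwa [hσ]
    · intro hz
      exact ⟨_, hz, hσ z⟩
  rw [h1, h1]

theorem ord_map (hσ : ∀ x, σ (σ x) = x) (h : ∀ i, D'.strand i = (D.strand i).map σ)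
    (x y : ArrowEnd) : D'.ord x y = D.ord (σ x) (σ y) := by
  unfold ord
  rw [propext (below_map hσ h x y), propext (below_map hσ h y x)]

end exchange

theorem swap_swap (e f x : ArrowEnd) : Equiv.swap e f (Equiv.swap e f x) = x := by
  rw [← Equiv.Perm.mul_apply, Equiv.swap_mul_self]
  rfl

theorem ord_swap {e f : ArrowEnd} (h : D.Adjacent e f)
    (h' : ∀ i, D'.strand i = (D.strand i).map (Equiv.swap e f)) (x y : ArrowEnd) :
    D'.ord x y = if (x = e ∧ y = f) ∨ (x = f ∧ y = e) then -D.ord x y else D.ord x y := by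
  have hne := h.ne
  rw [ord_map (swap_swap e f) h']
  by_cases hxe : x = e
  · subst hxe
    rw [Equiv.swap_apply_left]
    by_cases hyx : y = x
    · subst hyx
      rw [Equiv.swap_apply_left, ord_self, ord_self]
      simp
    · by_cases hyf : y = f
      · subst hyf
        rw [Equiv.swap_apply_right, if_pos (Or.inl ⟨rfl, rfl⟩), D.ord_symm]
      · rw [Equiv.swap_apply_of_ne_of_ne hyx hyf, if_neg]
        · exact (h.ord_right hyx hyf).symm
        · rintro (⟨-, h1⟩ | ⟨-, h1⟩)
          · exact hyf h1
          · exact hyx h1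
  · by_cases hxf : x = f
    · subst hxf
      rw [Equiv.swap_apply_right]
      by_cases hyx : y = x
      · subst hyx
        rw [Equiv.swap_apply_right, ord_self, ord_self]
        simp
      · by_cases hye : y = e
        · subst hye
          rw [Equiv.swap_apply_left, if_pos (Or.inr ⟨rfl, rfl⟩), D.ord_symm]
        · rw [Equiv.swap_apply_of_ne_of_ne hye hyx, if_neg]
          · exact h.ord_right hye hyx
          · rintro (⟨-, h1⟩ | ⟨-, h1⟩)
            · exact hyx h1
            · exact hye h1
    · rw [Equiv.swap_apply_of_ne_of_ne hxe hxf, if_neg]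
      · by_cases hye : y = e
        · subst hye
          rw [Equiv.swap_apply_left]
          exact (h.ord_left hxe hxf).symm
        · by_cases hyf : y = f
          · subst hyf
            rw [Equiv.swap_apply_right]
            exact h.ord_left hxe hxf
          · rw [Equiv.swap_apply_of_ne_of_ne hye hyf]
      · rintro (⟨h1, -⟩ | ⟨h1, -⟩)
        · exact hxe h1
        · exact hxf h1

theorem same_swap {e f : ArrowEnd} (h : D.Same e f)
    (h' : ∀ i, D'.strand i = (D.strand i).map (Equiv.swap e f)) (x y : ArrowEnd) :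
    D'.Same x y ↔ D.Same x y := by
  rw [same_map (swap_swap e f) h']
  have key : ∀ x : ArrowEnd, (D.Same x x ∧ D.Same (Equiv.swap e f x) x) ∨
      (¬ D.Same x x ∧ Equiv.swap e f x = x) := by
    intro x
    by_cases hxe : x = e
    · subst hxe
      left
      rw [Equiv.swap_apply_left]
      exact ⟨h.self_left, h.symm⟩
    · by_cases hxf : x = f
      · subst hxf
        left
        rw [Equiv.swap_apply_right]
        exact ⟨h.symm.self_left, h⟩
      · rw [Equiv.swap_apply_of_ne_of_ne hxe hxf]
        by_cases hs : D.Same x x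
        · exact Or.inl ⟨hs, hs⟩
        · exact Or.inr ⟨hs, rfl⟩
  rcases key x with ⟨hx, hx'⟩ | ⟨hx, hx'⟩ <;> rcases key y with ⟨hy, hy'⟩ | ⟨hy, hy'⟩
  · constructor
    · intro h1
      exact (hx'.symm.trans h1).trans hy'
    · intro h1
      exact (hx'.trans h1).trans hy'.symm
  · rw [hy']
    constructor
    · intro h1
      exact absurd h1.symm.self_left hy
    · intro h1
      exact absurd h1.symm.self_left hy
  · rw [hx']
    constructor
    · intro h1
      exact absurd h1.self_left hx
    · intro h1
      exact absurd h1.self_left hx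
  · rw [hx', hy']

theorem Next.swap {e f e' f' : ArrowEnd} (h : D.Next e f)
    (h' : ∀ i, D'.strand i = (D.strand i).map (Equiv.swap e' f')) (h1 : e ≠ e') (h2 : e ≠ f')
    (h3 : f ≠ e') (h4 : f ≠ f') : D'.Next e f := by
  obtain ⟨i, a, b, h⟩ := h
  refine ⟨i, a.map (Equiv.swap e' f'), b.map (Equiv.swap e' f'), ?_⟩
  rw [h' i, h, List.map_append, List.map_cons, List.map_cons, Equiv.swap_apply_of_ne_of_ne h1 h2,
    Equiv.swap_apply_of_ne_of_ne h3 h4]

theorem Adjacent.swap {e f e' f' : ArrowEnd} (h : D.Adjacent e f)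
    (h' : ∀ i, D'.strand i = (D.strand i).map (Equiv.swap e' f')) (h1 : e ≠ e') (h2 : e ≠ f')
    (h3 : f ≠ e') (h4 : f ≠ f') : D'.Adjacent e f :=
  h.imp (fun h => h.swap h' h1 h2 h3 h4) (fun h => h.swap h' h3 h4 h1 h2)

/-- The diagram in which two ends are exchanged. -/
def exchange (D : GaussDiagram n) (e f : ArrowEnd) (h : D.Same e f) : GaussDiagram n where
  strand i := (D.strand i).map (Equiv.swap e f)
  sign := D.sign
  nodup i := (D.nodup i).map (Equiv.injective _)
  disjoint i j hij x hx hx' := by
    rw [List.mem_map] at hx hx'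
    obtain ⟨y, hy, rfl⟩ := hx
    obtain ⟨z, hz, hzy⟩ := hx'
    rw [(Equiv.injective _).eq_iff] at hzy
    subst hzy
    exact D.disjoint i j hij _ hy hz
  complete a := by
    have key : ∀ x, (∃ i, x ∈ (D.strand i).map (Equiv.swap e f)) ↔ ∃ i, x ∈ D.strand i := by
      intro x
      have h1 : ∀ i, x ∈ (D.strand i).map (Equiv.swap e f) ↔ Equiv.swap e f x ∈ D.strand i := by
        intro i
        rw [List.mem_map]
        constructor
        · rintro ⟨w, hw, rfl⟩
          rwa [swap_swap]
        · intro hz
          exact ⟨_, hz, swap_swap _ _ _⟩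
      simp only [h1]
      obtain ⟨i, he, hf⟩ := h
      by_cases hxe : x = e
      · subst hxe
        rw [Equiv.swap_apply_left]
        exact ⟨fun _ => ⟨i, he⟩, fun _ => ⟨i, hf⟩⟩
      · by_cases hxf : x = f
        · subst hxf
          rw [Equiv.swap_apply_right]
          exact ⟨fun _ => ⟨i, hf⟩, fun _ => ⟨i, he⟩⟩
        · rw [Equiv.swap_apply_of_ne_of_ne hxe hxf]
    rw [key, key]
    exact D.complete a

end GaussDiagram

end Pool.Agent.H7.WSL
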