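import Pool.Agent.H7.WSL.Defs

/-!
Stacking is compatible with the moves; `WSLsc n` is a monoid.
-/

namespace Pool.Agent.H7.WSL

open GaussDiagram

variable {n : ℕ}

/-- `C` contains `D` (with labels changed by `f`) on every strand, between `P` and `S`. -/
structure Ctx (f : ℕ → ℕ) (P S : Fin n → List ArrowEnd) (D C : GaussDiagram n) : Prop where
  inj : Function.Injective f
  strand : ∀ i, C.strand i = P i ++ (D.strand i).map (fun e => (f e.1, e.2)) ++ S i
  outP : ∀ i, ∀ e ∈ P i, ∀ a, e.1 ≠ f a
  outS : ∀ i, ∀ e ∈ S i, ∀ a, e.1 ≠ f a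
  sign : ∀ a, C.sign (f a) = D.sign a

namespace Ctx

variable {f : ℕ → ℕ} {P S : Fin n → List ArrowEnd} {D C D' C' : GaussDiagram n}

theorem next (h : Ctx f P S D C) {e e' : ArrowEnd} (hn : D.Next e e') :
    C.Next (f e.1, e.2) (f e'.1, e'.2) := by
  obtain ⟨i, l₁, l₂, hi⟩ := hn
  refine ⟨i, P i ++ l₁.map (fun e => (f e.1, e.2)), l₂.map (fun e => (f e.1, e.2)) ++ S i, ?_⟩
  rw [h.strand i, hi]
  simp

theorem adjacent (h : Ctx f P S D C) {e e' : ArrowEnd} (hn : D.Adjacent e e') :
    C.Adjacent (f e.1, e.2) (f e'.1, e'.2) :=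
  hn.imp h.next h.next

theorem nextSigned (h : Ctx f P S D C) {ε : ℤˣ} {e e' : ArrowEnd} (hn : D.NextSigned ε e e') :
    C.NextSigned ε (f e.1, e.2) (f e'.1, e'.2) := by
  unfold NextSigned at *
  split_ifs at hn ⊢
  · exact h.next hn
  · exact h.next hn

theorem swap_out (_h : Ctx f P S D C) {L : List ArrowEnd} (hL : ∀ e ∈ L, ∀ a, e.1 ≠ f a)
    (a b : ℕ) (c d : Bool) : L.map (Equiv.swap (f a, c) (f b, d)) = L := by
  conv_rhs => rw [← List.map_id L]
  apply List.map_congr_left
  intro e he
  rw [Equiv.swap_apply_of_ne_of_ne]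
  · rfl
  · intro h1
    exact hL e he a (congrArg Prod.fst h1)
  · intro h1
    exact hL e he b (congrArg Prod.fst h1)

theorem swap_in (h : Ctx f P S D C) (L : List ArrowEnd) (a b : ℕ) (c d : Bool) :
    (L.map (fun e : ArrowEnd => (f e.1, e.2))).map (Equiv.swap (f a, c) (f b, d)) =
      (L.map (Equiv.swap (a, c) (b, d))).map (fun e : ArrowEnd => (f e.1, e.2)) := by
  rw [List.map_map, List.map_map]
  apply List.map_congr_left
  intro e _
  have hinj : Function.Injective (fun e : ArrowEnd => (f e.1, e.2)) := by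
    rintro ⟨x, y⟩ ⟨z, w⟩ hxy
    simp only [Prod.mk.injEq] at hxy
    rw [h.inj hxy.1, hxy.2]
  simp only [Function.comp]
  rw [Equiv.swap_apply_def, Equiv.swap_apply_def]
  by_cases h1 : e = (a, c)
  · subst h1
    simp
  · by_cases h2 : e = (b, d)
    · subst h2
      have h3 : ¬ ((f b, d) = (f a, c)) := fun h3 => h1 (hinj h3)
      simp only [h1, if_false, if_true, h3]
    · have h3 : ¬ ((f e.1, e.2) = (f a, c)) := fun h3 => h1 (hinj h3)
      have h4 : ¬ ((f e.1, e.2) = (f b, d)) := fun h3 => h2 (hinj h3)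
      simp only [h1, h2, if_false, h3, h4]

theorem swap_strand (h : Ctx f P S D C) (i : Fin n) (L : List ArrowEnd) (a b : ℕ) (c d : Bool) :
    (P i ++ L.map (fun e => (f e.1, e.2)) ++ S i).map (Equiv.swap (f a, c) (f b, d)) =
      P i ++ (L.map (Equiv.swap (a, c) (b, d))).map (fun e => (f e.1, e.2)) ++ S i := by
  rw [List.map_append, List.map_append, h.swap_out (h.outP i), h.swap_out (h.outS i), h.swap_in]

theorem filter_out {L : List ArrowEnd} (hL : ∀ e ∈ L, ∀ a, e.1 ≠ f a) (a : ℕ) :
    L.filter (fun e => e.1 ≠ f a) = L := by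
  rw [List.filter_eq_self]
  intro e he
  simpa using hL e he a

theorem r1 (h : Ctx f P S D C) (h' : Ctx f P S D' C') (hs : D'.sign = D.sign → C'.sign = C.sign)
    (hm : R1 D D') : R1 C C' := by
  obtain ⟨a, h1, h2, h3⟩ := hm
  refine ⟨f a, h.adjacent h1, ?_, hs h3⟩
  intro i
  rw [h'.strand i, h.strand i, h2 i, List.filter_append, List.filter_append,
    filter_out (h.outP i), filter_out (h.outS i), List.filter_map]
  congr 3
  apply List.filter_congr
  intro e _
  simp only [Function.comp, ne_eq, h.inj.eq_iff]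

theorem r2 (h : Ctx f P S D C) (h' : Ctx f P S D' C') (hs : D'.sign = D.sign → C'.sign = C.sign)
    (hm : R2 D D') : R2 C C' := by
  obtain ⟨a, b, hab, hsg, h1, h1', h2, h3⟩ := hm
  refine ⟨f a, f b, fun hf => hab (h.inj hf), ?_, h.adjacent h1, h.adjacent h1', ?_, hs h3⟩
  · rw [h.sign, h.sign, hsg]
  intro i
  have hP : (P i).filter (fun e => e.1 ≠ f a ∧ e.1 ≠ f b) = P i := by
    rw [List.filter_eq_self]
    intro e he
    simpa using ⟨h.outP i e he a, h.outP i e he b⟩
  have hS : (S i).filter (fun e => e.1 ≠ f a ∧ e.1 ≠ f b) = S i := by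
    rw [List.filter_eq_self]
    intro e he
    simpa using ⟨h.outS i e he a, h.outS i e he b⟩
  rw [h'.strand i, h.strand i, h2 i, List.filter_append, List.filter_append, hP, hS,
    List.filter_map]
  congr 3
  apply List.filter_congr
  intro e _
  simp only [Function.comp, ne_eq, h.inj.eq_iff]

theorem r3 (h : Ctx f P S D C) (h' : Ctx f P S D' C') (hs : D'.sign = D.sign → C'.sign = C.sign)
    (hm : R3 D D') : R3 C C' := by
  obtain ⟨x, y, z, δ, hxy, hxz, hyz, h1, h2, h3, h4, h5⟩ := hm
  refine ⟨f x, f y, f z, δ, fun hf => hxy (h.inj hf), fun hf => hxz (h.inj hf),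
    fun hf => hyz (h.inj hf), ?_, ?_, ?_, ?_, hs h5⟩
  · rw [h.sign, h.sign]
    exact h.nextSigned h1
  · rw [h.sign, h.sign]
    exact h.nextSigned h2
  · rw [h.sign, h.sign]
    exact h.nextSigned h3
  · intro i
    rw [h'.strand i, h.strand i, h4 i, tl, tl, tl, hd, hd, hd, h.swap_strand, h.swap_strand,
      h.swap_strand]

theorem oc (h : Ctx f P S D C) (h' : Ctx f P S D' C') (hs : D'.sign = D.sign → C'.sign = C.sign)
    (hm : OC D D') : OC C C' := by
  obtain ⟨a, b, hab, h1, h2, h3⟩ := hm
  refine ⟨f a, f b, fun hf => hab (h.inj hf), h.adjacent h1, ?_, hs h3⟩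
  intro i
  rw [h'.strand i, h.strand i, h2 i, tl, tl, h.swap_strand]

theorem sc (h : Ctx f P S D C) (h' : Ctx f P S D' C')
    (hs : ∀ a, (∀ b, b ≠ a → D'.sign b = D.sign b) → ∀ b, b ≠ f a → C'.sign b = C.sign b)
    (hm : SC D D') : SC C C' := by
  obtain ⟨a, h1, h2, h3, h4⟩ := hm
  refine ⟨f a, ?_, ?_, ?_, hs a h4⟩
  · obtain ⟨i, h5, h6⟩ := h1
    refine ⟨i, ?_, ?_⟩
    · rw [h.strand i]
      simp only [List.mem_append, List.mem_map]
      exact Or.inl (Or.inr ⟨_, h5, rfl⟩)
    · rw [h.strand i]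
      simp only [List.mem_append, List.mem_map]
      exact Or.inl (Or.inr ⟨_, h6, rfl⟩)
  · intro i
    rw [h'.strand i, h.strand i, h2 i, tl, hd, h.swap_strand]
  · rw [h.sign, h'.sign, h3]

end Ctx

theorem ctx_left (D E : GaussDiagram n) :
    Ctx (fun a => 2 * a) (fun _ => []) (fun i => (E.strand i).map od) D (stack D E) where
  inj := fun a b h => by simpa using h
  strand i := rfl
  outP := by simp
  outS i e he a := by
    rw [List.mem_map] at he
    obtain ⟨g, -, rfl⟩ := he
    simp only [od]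
    omega
  sign a := by
    show (if (2 * a) % 2 = 0 then _ else _) = _
    rw [if_pos (by omega)]
    congr 1
    omega

theorem ctx_right (D E : GaussDiagram n) :
    Ctx (fun a => 2 * a + 1) (fun i => (D.strand i).map ev) (fun _ => []) E (stack D E) where
  inj := fun a b h => by simpa using h
  strand i := by simp [stack, od]
  outP i e he a := by
    rw [List.mem_map] at he
    obtain ⟨g, -, rfl⟩ := he
    simp only [ev]
    omega
  outS := by simp
  sign a := by
    show (if (2 * a + 1) % 2 = 0 then _ else _) = _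
    rw [if_neg (by omega)]
    congr 1
    omega

theorem mem_map_ev {L : List ArrowEnd} {a : ℕ} {b : Bool} :
    (a, b) ∈ L.map ev ↔ a % 2 = 0 ∧ (a / 2, b) ∈ L := by
  rw [List.mem_map]
  constructor
  · rintro ⟨⟨c, d⟩, h1, h2⟩
    simp only [ev, Prod.mk.injEq] at h2
    obtain ⟨h2, rfl⟩ := h2
    have : c = a / 2 := by omega
    subst this
    exact ⟨by omega, h1⟩
  · rintro ⟨h1, h2⟩
    exact ⟨_, h2, by simp only [ev, Prod.mk.injEq, and_true]; omega⟩

theorem mem_map_od {L : List ArrowEnd} {a : ℕ} {b : Bool} :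
    (a, b) ∈ L.map od ↔ a % 2 = 1 ∧ (a / 2, b) ∈ L := by
  rw [List.mem_map]
  constructor
  · rintro ⟨⟨c, d⟩, h1, h2⟩
    simp only [od, Prod.mk.injEq] at h2
    obtain ⟨h2, rfl⟩ := h2
    have : c = a / 2 := by omega
    subst this
    exact ⟨by omega, h1⟩
  · rintro ⟨h1, h2⟩
    exact ⟨_, h2, by simp only [od, Prod.mk.injEq, and_true]; omega⟩

theorem arrows_stack (D E : GaussDiagram n) (a : ℕ) :
    a ∈ (stack D E).arrows ↔ (a % 2 = 0 ∧ a / 2 ∈ D.arrows) ∨ (a % 2 = 1 ∧ a / 2 ∈ E.arrows) := by
  unfold GaussDiagram.arrows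
  simp only [stack, tl, List.mem_append, mem_map_ev, mem_map_od, Set.mem_ofPred_eq, exists_or,
    exists_and_left]

/-- Relabelling applied to the even labels. -/
def fL (f : ℕ → ℕ) (a : ℕ) : ℕ := if a % 2 = 0 then 2 * f (a / 2) else a

/-- Relabelling applied to the odd labels. -/
def fR (f : ℕ → ℕ) (a : ℕ) : ℕ := if a % 2 = 0 then a else 2 * f (a / 2) + 1

/-- The relabelling used for associativity. -/
def fA (a : ℕ) : ℕ := if a % 2 = 1 then 2 * a + 1 else if a % 4 = 0 then a / 2 else a - 1

theorem fL_ev (f : ℕ → ℕ) (a : ℕ) : fL f (2 * a) = 2 * f a := by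
  unfold fL
  rw [if_pos (by omega), show 2 * a / 2 = a by omega]

theorem fL_od (f : ℕ → ℕ) (a : ℕ) : fL f (2 * a + 1) = 2 * a + 1 := by
  unfold fL
  rw [if_neg (by omega)]

theorem fR_ev (f : ℕ → ℕ) (a : ℕ) : fR f (2 * a) = 2 * a := by
  unfold fR
  rw [if_pos (by omega)]

theorem fR_od (f : ℕ → ℕ) (a : ℕ) : fR f (2 * a + 1) = 2 * f a + 1 := by
  unfold fR
  rw [if_neg (by omega), show (2 * a + 1) / 2 = a by omega]

theorem fA_one (a : ℕ) : fA (2 * (2 * a)) = 2 * a := by
  unfold fA
  rw [if_neg (by omega), if_pos (by omega)]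
  omega

theorem fA_two (a : ℕ) : fA (2 * (2 * a + 1)) = 2 * (2 * a) + 1 := by
  unfold fA
  rw [if_neg (by omega), if_neg (by omega)]
  omega

theorem fA_three (a : ℕ) : fA (2 * a + 1) = 2 * (2 * a + 1) + 1 := by
  unfold fA
  rw [if_pos (by omega)]

theorem relabel_left {D D' : GaussDiagram n} (E : GaussDiagram n) (h : Relabel D D') :
    Relabel (stack D E) (stack D' E) := by
  obtain ⟨f, h1, h2, h3⟩ := h
  refine ⟨fL f, ?_, ?_, ?_⟩
  · intro a ha b hb hab
    rw [arrows_stack] at ha hb
    unfold fL at hab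
    rcases ha with ⟨ha, ha'⟩ | ⟨ha, ha'⟩ <;> rcases hb with ⟨hb, hb'⟩ | ⟨hb, hb'⟩
    · rw [if_pos ha, if_pos hb] at hab
      have := h1 ha' hb' (by omega)
      omega
    · rw [if_pos ha, if_neg (by omega)] at hab
      omega
    · rw [if_neg (by omega), if_pos hb] at hab
      omega
    · rw [if_neg (by omega), if_neg (by omega)] at hab
      exact hab
  · intro i
    simp only [stack, h2 i, List.map_append, List.map_map]
    congr 1
    · apply List.map_congr_left
      intro e _
      show (2 * f e.1, e.2) = (fL f (2 * e.1), e.2)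
      rw [fL_ev]
    · apply List.map_congr_left
      intro e _
      show (2 * e.1 + 1, e.2) = (fL f (2 * e.1 + 1), e.2)
      rw [fL_od]
  · intro a ha
    rw [arrows_stack] at ha
    simp only [stack]
    unfold fL
    rcases ha with ⟨ha, ha'⟩ | ⟨ha, ha'⟩
    · rw [if_pos ha, if_pos ha, if_pos (by omega)]
      rw [show 2 * f (a / 2) / 2 = f (a / 2) by omega]
      exact h3 _ ha'
    · rw [if_neg (show ¬ a % 2 = 0 by omega), if_neg (show ¬ a % 2 = 0 by omega),
        if_neg (show ¬ a % 2 = 0 by omega)]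

theorem relabel_right {D D' : GaussDiagram n} (E : GaussDiagram n) (h : Relabel D D') :
    Relabel (stack E D) (stack E D') := by
  obtain ⟨f, h1, h2, h3⟩ := h
  refine ⟨fR f, ?_, ?_, ?_⟩
  · intro a ha b hb hab
    rw [arrows_stack] at ha hb
    unfold fR at hab
    rcases ha with ⟨ha, ha'⟩ | ⟨ha, ha'⟩ <;> rcases hb with ⟨hb, hb'⟩ | ⟨hb, hb'⟩
    · rw [if_pos ha, if_pos hb] at hab
      exact hab
    · rw [if_pos ha, if_neg (by omega)] at hab
      omega
    · rw [if_neg (by omega), if_pos hb] at hab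
      omega
    · rw [if_neg (by omega), if_neg (by omega)] at hab
      have := h1 ha' hb' (by omega)
      omega
  · intro i
    simp only [stack, h2 i, List.map_append, List.map_map]
    congr 1
    · apply List.map_congr_left
      intro e _
      show (2 * e.1, e.2) = (fR f (2 * e.1), e.2)
      rw [fR_ev]
    · apply List.map_congr_left
      intro e _
      show (2 * f e.1 + 1, e.2) = (fR f (2 * e.1 + 1), e.2)
      rw [fR_od]
  · intro a ha
    rw [arrows_stack] at ha
    simp only [stack]
    unfold fR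
    rcases ha with ⟨ha, ha'⟩ | ⟨ha, ha'⟩
    · rw [if_pos ha, if_pos ha, if_pos ha]
    · rw [if_neg (show ¬ a % 2 = 0 by omega), if_neg (show ¬ a % 2 = 0 by omega),
        if_neg (by omega)]
      rw [show (2 * f (a / 2) + 1) / 2 = f (a / 2) by omega]
      exact h3 _ ha'

theorem sign_left {D D' : GaussDiagram n} (E : GaussDiagram n) (h : D'.sign = D.sign) :
    (stack D' E).sign = (stack D E).sign := by
  simp only [stack, h]

theorem sign_right {D D' : GaussDiagram n} (E : GaussDiagram n) (h : D'.sign = D.sign) :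
    (stack E D').sign = (stack E D).sign := by
  simp only [stack, h]

theorem move_left {D D' : GaussDiagram n} (E : GaussDiagram n) (h : Move D D') :
    Move (stack D E) (stack D' E) := by
  rcases h with h | h | h | h | h | h
  · exact Or.inl (relabel_left E h)
  · exact Or.inr (Or.inl ((ctx_left D E).r1 (ctx_left D' E) (sign_left E) h))
  · exact Or.inr (Or.inr (Or.inl ((ctx_left D E).r2 (ctx_left D' E) (sign_left E) h)))
  · exact Or.inr (Or.inr (Or.inr (Or.inl ((ctx_left D E).r3 (ctx_left D' E) (sign_left E) h))))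
  · exact Or.inr (Or.inr (Or.inr (Or.inr (Or.inl
      ((ctx_left D E).oc (ctx_left D' E) (sign_left E) h)))))
  · refine Or.inr (Or.inr (Or.inr (Or.inr (Or.inr
      ((ctx_left D E).sc (ctx_left D' E) ?_ h)))))
    intro a ha b hb
    simp only [stack]
    by_cases hb2 : b % 2 = 0
    · rw [if_pos hb2, if_pos hb2]
      exact ha _ (by omega)
    · rw [if_neg hb2, if_neg hb2]

theorem move_right {D D' : GaussDiagram n} (E : GaussDiagram n) (h : Move D D') :
    Move (stack E D) (stack E D') := by
  rcases h with h | h | h | h | h | h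
  · exact Or.inl (relabel_right E h)
  · exact Or.inr (Or.inl ((ctx_right E D).r1 (ctx_right E D') (sign_right E) h))
  · exact Or.inr (Or.inr (Or.inl ((ctx_right E D).r2 (ctx_right E D') (sign_right E) h)))
  · exact Or.inr (Or.inr (Or.inr (Or.inl ((ctx_right E D).r3 (ctx_right E D') (sign_right E) h))))
  · exact Or.inr (Or.inr (Or.inr (Or.inr (Or.inl
      ((ctx_right E D).oc (ctx_right E D') (sign_right E) h)))))
  · refine Or.inr (Or.inr (Or.inr (Or.inr (Or.inr
      ((ctx_right E D).sc (ctx_right E D') ?_ h)))))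
    intro a ha b hb
    simp only [stack]
    by_cases hb2 : b % 2 = 0
    · rw [if_pos hb2, if_pos hb2]
    · rw [if_neg hb2, if_neg hb2]
      exact ha _ (by omega)

theorem eqv_left {D D' : GaussDiagram n} (E : GaussDiagram n) (h : Relation.EqvGen Move D D') :
    Relation.EqvGen Move (stack D E) (stack D' E) := by
  induction h with
  | rel _ _ h => exact .rel _ _ (move_left E h)
  | refl _ => exact .refl _
  | symm _ _ _ ih => exact .symm _ _ ih
  | trans _ _ _ _ _ ih1 ih2 => exact .trans _ _ _ ih1 ih2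

theorem eqv_right {D D' : GaussDiagram n} (E : GaussDiagram n) (h : Relation.EqvGen Move D D') :
    Relation.EqvGen Move (stack E D) (stack E D') := by
  induction h with
  | rel _ _ h => exact .rel _ _ (move_right E h)
  | refl _ => exact .refl _
  | symm _ _ _ ih => exact .symm _ _ ih
  | trans _ _ _ _ _ ih1 ih2 => exact .trans _ _ _ ih1 ih2

theorem assoc_relabel (D E F : GaussDiagram n) :
    Relabel (stack (stack D E) F) (stack D (stack E F)) := by
  refine ⟨fA, ?_, ?_, ?_⟩
  · intro a _ b _ hab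
    unfold fA at hab
    split_ifs at hab <;> omega
  · intro i
    simp only [stack, List.map_append, List.map_map, List.append_assoc]
    congr 1
    · apply List.map_congr_left
      intro e _
      show (2 * e.1, e.2) = (fA (2 * (2 * e.1)), e.2)
      rw [fA_one]
    congr 1
    · apply List.map_congr_left
      intro e _
      show (2 * (2 * e.1) + 1, e.2) = (fA (2 * (2 * e.1 + 1)), e.2)
      rw [fA_two]
    · apply List.map_congr_left
      intro e _
      show (2 * (2 * e.1 + 1) + 1, e.2) = (fA (2 * e.1 + 1), e.2)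
      rw [fA_three]
  · intro a _
    simp only [stack]
    unfold fA
    by_cases h1 : a % 2 = 1
    · rw [if_pos h1, if_neg (by omega), if_neg (by omega), if_neg (by omega)]
      congr 1
      omega
    · rw [if_neg h1, if_pos (show a % 2 = 0 by omega)]
      by_cases h2 : a % 4 = 0
      · rw [if_pos h2, if_pos (by omega), if_pos (by omega)]
      · rw [if_neg h2, if_neg (by omega), if_pos (by omega), if_neg (by omega)]
        congr 1
        omega

theorem one_relabel (D : GaussDiagram n) : Relabel D (stack (trivialDiagram n) D) := by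
  refine ⟨fun a => 2 * a + 1, ?_, ?_, ?_⟩
  · intro a _ b _ hab
    dsimp only at hab
    omega
  · intro i
    simp [stack, trivialDiagram, od]
  · intro a _
    simp only [stack]
    rw [if_neg (by omega)]
    congr 1
    omega

theorem relabel_one (D : GaussDiagram n) : Relabel D (stack D (trivialDiagram n)) := by
  refine ⟨fun a => 2 * a, ?_, ?_, ?_⟩
  · intro a _ b _ hab
    dsimp only at hab
    omega
  · intro i
    simp [stack, trivialDiagram, ev]
  · intro a _
    simp only [stack]
    rw [if_pos (by omega)]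
    congr 1
    omega

theorem mk_eq {D E : GaussDiagram n} (h : Relation.EqvGen Move D E) :
    WSLsc.mk D = WSLsc.mk E := Quotient.sound (s := scEquivalence n) h

/-- Stacking makes `wSL_n^sc` a monoid whose unit is the trivial string link. -/
instance : Monoid (WSLsc n) where
  mul := Quotient.map₂ stack (by
    intro D D' hD E E' hE
    exact Relation.EqvGen.trans _ _ _ (eqv_left E hD) (eqv_right D' hE))
  one := WSLsc.mk (trivialDiagram n)
  mul_assoc := by
    rintro ⟨D⟩ ⟨E⟩ ⟨F⟩
    exact mk_eq (.rel _ _ (Or.inl (assoc_relabel D E F)))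
  one_mul := by
    rintro ⟨D⟩
    exact (mk_eq (.rel _ _ (Or.inl (one_relabel D)))).symm
  mul_one := by
    rintro ⟨D⟩
    exact (mk_eq (.rel _ _ (Or.inl (relabel_one D)))).symm

theorem mk_mul (D E : GaussDiagram n) : WSLsc.mk D * WSLsc.mk E = WSLsc.mk (stack D E) := rfl

theorem one_def : (1 : WSLsc n) = WSLsc.mk (trivialDiagram n) := rfl

/-- The welded pure braids in `wSL_n^sc`: the classes of the monotone diagrams, i.e. the image of
the welded pure braid group. -/
def pureBraids (n : ℕ) : Set (WSLsc n) :=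
  {x | ∃ D : GaussDiagram n, Monotone D ∧ WSLsc.mk D = x}

end Pool.Agent.H7.WSL
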