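import Pool.Agent.H7.WSL.Comm

/-!
On one strand everything is trivial up to self-crossing changes.
-/

namespace Pool.Agent.H7.WSL

open GaussDiagram

variable {n : ℕ}

namespace GaussDiagram

variable {D D' : GaussDiagram n}

/-- Deletion of the arrow `a`. -/
def delete (D : GaussDiagram n) (a : ℕ) : GaussDiagram n where
  strand i := (D.strand i).filter (fun e => e.1 ≠ a)
  sign := D.sign
  nodup i := (D.nodup i).filter _
  disjoint i j hij e he he' :=
    D.disjoint i j hij e (List.mem_of_mem_filter he) (List.mem_of_mem_filter he')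
  complete b := by
    have h := D.complete b
    simp only [List.mem_filter, exists_and_right, tl, hd] at h ⊢
    rw [h]

theorem exists_shorter (m : ℕ) : ∀ (D : GaussDiagram 1) (e : ArrowEnd) (M R : List ArrowEnd),
    M.length = m → D.strand 0 = e :: (M ++ (e.1, !e.2) :: R) →
    ∃ D' : GaussDiagram 1, Relation.EqvGen Move D D' ∧
      (D'.strand 0).length < (D.strand 0).length := by
  induction m with
  | zero =>
    intro D e M R hM hD
    have hM' : M = [] := List.length_eq_zero_iff.1 hM
    subst hM'
    have hadj : D.Adjacent (tl e.1) (hd e.1) := by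
      obtain ⟨a, u⟩ := e
      cases u with
      | false => exact Or.inl ⟨0, [], R, hD⟩
      | true => exact Or.inr ⟨0, [], R, hD⟩
    refine ⟨D.delete e.1, .rel _ _ (Or.inr (Or.inl ⟨e.1, hadj, fun _ => rfl, rfl⟩)), ?_⟩
    show ((D.strand 0).filter (fun f => f.1 ≠ e.1)).length < _
    rw [hD]
    simp only [List.nil_append, ne_eq, not_true_eq_false, decide_false, Bool.false_eq_true,
      not_false_eq_true, List.filter_cons_of_neg, List.length_cons]
    have := List.length_filter_le (fun f : ArrowEnd => decide (f.1 ≠ e.1)) R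
    simp only [ne_eq] at this
    omega
  | succ m ih =>
    intro D e M R hM hD
    have hne : M ≠ [] := by
      rintro rfl
      simp at hM
    obtain ⟨M', g, rfl⟩ : ∃ M' g, M = M' ++ [g] := ⟨_, _, (List.dropLast_append_getLast hne).symm⟩
    have hM' : M'.length = m := by simpa using hM
    have hD2 : D.strand 0 = (e :: M') ++ g :: (e.1, !e.2) :: R := by
      rw [hD]
      simp
    have hnd := D.nodup 0
    have hnext : D.Next g (e.1, !e.2) := ⟨0, e :: M', R, hD2⟩
    have hg1 : g ≠ (e.1, !e.2) := hnext.ne
    have hg2 : g ≠ e := by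
      rintro rfl
      rw [hD2] at hnd
      simp at hnd
    have hgl : g.1 ≠ e.1 := by
      intro h
      obtain ⟨b, v⟩ := g
      obtain ⟨a, u⟩ := e
      simp only at h
      subst h
      cases u <;> cases v <;> simp_all
    have hself : ∀ a, (∃ i, tl a ∈ D.strand i) → D.IsSelf a := by
      rintro a ⟨i, hi⟩
      obtain ⟨j, hj⟩ := (D.complete a).1 ⟨i, hi⟩
      have h1 : i = 0 := Subsingleton.elim _ _
      have h2 : j = 0 := Subsingleton.elim _ _
      subst h1
      subst h2
      exact ⟨0, hi, hj⟩
    have hself' : ∀ f ∈ D.strand 0, D.IsSelf f.1 := by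
      rintro ⟨a, u⟩ hf
      cases u with
      | false => exact hself a ⟨0, hf⟩
      | true => exact hself a ((D.complete a).2 ⟨0, hf⟩)
    have hcomm := commute (D := D) (D' := D.exchange g (e.1, !e.2) hnext.same)
      (Or.inl hnext) hgl
      (Or.inr (hself' _ (by rw [hD2]; simp))) (Or.inr (hself' (e.1, !e.2) (by rw [hD2]; simp)))
      (fun _ => rfl) rfl
    have hfix : ∀ L : List ArrowEnd, g ∉ L → (e.1, !e.2) ∉ L →
        L.map (Equiv.swap g (e.1, !e.2)) = L := by
      intro L h1 h2
      conv_rhs => rw [← List.map_id L]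
      apply List.map_congr_left
      intro x hx
      rw [Equiv.swap_apply_of_ne_of_ne]
      · rfl
      · rintro rfl
        exact h1 hx
      · rintro rfl
        exact h2 hx
    rw [hD2, List.nodup_append] at hnd
    obtain ⟨hn1, hn2, hn3⟩ := hnd
    have hs : (D.exchange g (e.1, !e.2) hnext.same).strand 0 =
        e :: (M' ++ (e.1, !e.2) :: (g :: R)) := by
      show (D.strand 0).map (Equiv.swap g (e.1, !e.2)) = _
      have f1 := hfix (e :: M') (fun h => hn3 g h g (by simp) rfl)
        (fun h => hn3 _ h (e.1, !e.2) (by simp) rfl)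
      simp only [List.nodup_cons, List.mem_cons, not_or] at hn2
      have f2 := hfix R hn2.1.2 hn2.2.1
      rw [hD2, List.map_append, f1, List.map_cons, List.map_cons, f2, Equiv.swap_apply_left,
        Equiv.swap_apply_right]
      rfl
    obtain ⟨D', h1, h2⟩ := ih _ e M' (g :: R) hM' hs
    refine ⟨D', .trans _ _ _ hcomm h1, ?_⟩
    have h3 : ((D.exchange g (e.1, !e.2) hnext.same).strand 0).length =
        (D.strand 0).length := List.length_map ..
    omega

theorem one_strand (m : ℕ) : ∀ D : GaussDiagram 1, (D.strand 0).length ≤ m →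
    Relation.EqvGen Move D (trivialDiagram 1) := by
  induction m with
  | zero =>
    intro D hD
    have h0 : D.strand 0 = [] := List.length_eq_zero_iff.1 (by omega)
    refine .rel _ _ (Or.inl ⟨id, Function.injective_id.injOn, ?_, ?_⟩)
    · intro i
      have h1 : i = 0 := Subsingleton.elim _ _
      subst h1
      rw [h0]
      rfl
    · rintro a ⟨i, hi⟩
      have h1 : i = 0 := Subsingleton.elim _ _
      subst h1
      rw [h0] at hi
      exact absurd hi List.not_mem_nil
  | succ m ih =>
    intro D hD
    rcases hL : D.strand 0 with _ | ⟨e, L⟩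
    · exact ih D (by rw [hL]; simp)
    · have hmem : (e.1, !e.2) ∈ D.strand 0 := by
        obtain ⟨a, u⟩ := e
        have he : (a, u) ∈ D.strand 0 := by rw [hL]; simp
        cases u with
        | false =>
          obtain ⟨j, hj⟩ := (D.complete a).1 ⟨0, he⟩
          have h1 : j = 0 := Subsingleton.elim _ _
          subst h1
          exact hj
        | true =>
          obtain ⟨j, hj⟩ := (D.complete a).2 ⟨0, he⟩
          have h1 : j = 0 := Subsingleton.elim _ _
          subst h1
          exact hj
      rw [hL, List.mem_cons] at hmem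
      have hmem' : (e.1, !e.2) ∈ L := by
        rcases hmem with h | h
        · exfalso
          have := congrArg Prod.snd h
          simp at this
        · exact h
      obtain ⟨M, R, hMR⟩ := List.append_of_mem hmem'
      obtain ⟨D', h1, h2⟩ := exists_shorter M.length D e M R rfl (by rw [hL, hMR])
      exact .trans _ _ _ h1 (ih D' (by omega))

end GaussDiagram

/-- `wSL_1^sc` is trivial. -/
theorem wslsc_one (x : WSLsc 1) : x = 1 := by
  obtain ⟨D, rfl⟩ := Quotient.exists_rep x
  exact mk_eq (one_strand _ D le_rfl)

theorem one_mem_pureBraids (n : ℕ) : (1 : WSLsc n) ∈ pureBraids n :=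
  ⟨trivialDiagram n, ⟨fun _ => 0, fun _ => List.Pairwise.nil⟩, rfl⟩

end Pool.Agent.H7.WSL
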