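import Pool.Agent.H7.WSL.Inv

/-!
The invariant `val` of welded string links up to self-crossing changes.
-/

namespace Pool.Agent.H7.WSL

open GaussDiagram

variable {n : ℕ}

namespace GaussDiagram

variable {D D' : GaussDiagram n}

/-- The finite set of (labels of) arrows. -/
def arr (D : GaussDiagram n) : Finset ℕ :=
  Finset.univ.biUnion (fun i => ((D.strand i).map Prod.fst).toFinset)

theorem mem_arr_aux (D : GaussDiagram n) (a : ℕ) :
    a ∈ D.arr ↔ ∃ i b, (a, b) ∈ D.strand i := by
  simp only [arr, Finset.mem_biUnion, Finset.mem_univ, true_and, List.mem_toFinset,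
    List.mem_map, Prod.exists]
  constructor
  · rintro ⟨i, c, b, h, rfl⟩
    exact ⟨i, b, h⟩
  · rintro ⟨i, b, h⟩
    exact ⟨i, a, b, h, rfl⟩

theorem mem_arr_tl (D : GaussDiagram n) (a : ℕ) : a ∈ D.arr ↔ ∃ i, tl a ∈ D.strand i := by
  rw [mem_arr_aux]
  constructor
  · rintro ⟨i, b, h⟩
    cases b with
    | false => exact ⟨i, h⟩
    | true => exact (D.complete a).2 ⟨i, h⟩
  · rintro ⟨i, h⟩
    exact ⟨i, false, h⟩

theorem mem_arr_hd (D : GaussDiagram n) (a : ℕ) : a ∈ D.arr ↔ ∃ i, hd a ∈ D.strand i := by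
  rw [mem_arr_tl, D.complete a]

theorem mem_arr_of_mem (D : GaussDiagram n) {e : ArrowEnd} {i : Fin n} (h : e ∈ D.strand i) :
    e.1 ∈ D.arr := by
  rw [mem_arr_aux]
  exact ⟨i, e.2, h⟩

theorem mem_arr_same (D : GaussDiagram n) (a : ℕ) : a ∈ D.arr ↔ D.Same (tl a) (tl a) := by
  rw [mem_arr_tl]
  constructor
  · rintro ⟨i, h⟩
    exact ⟨i, h, h⟩
  · rintro ⟨i, h, -⟩
    exact ⟨i, h⟩

open Classical in
/-- The indicator of a proposition. -/
noncomputable def ind (p : Prop) : ℤ := if p then 1 else 0

theorem ind_neg {p : Prop} (h : ¬ p) : ind p = 0 := if_neg h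

theorem ind_pos {p : Prop} (h : p) : ind p = 1 := if_pos h

/-- Indicator: `a` is a self-arrow, `b` is not and their heads are on the same strand. -/
noncomputable def c1 (D : GaussDiagram n) (a b : ℕ) : ℤ :=
  ind (D.Same (tl a) (hd a) ∧ D.Same (hd a) (hd b) ∧ ¬ D.Same (tl b) (hd b))

/-- Indicator: `a` and `b` go in opposite directions between two different strands. -/
noncomputable def c2 (D : GaussDiagram n) (a b : ℕ) : ℤ :=
  ind (D.Same (tl a) (hd b) ∧ D.Same (hd a) (tl b) ∧ ¬ D.Same (tl a) (hd a))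

/-- The contribution of a pair of arrows to the invariant. -/
noncomputable def k (D : GaussDiagram n) (a b : ℕ) : ℤ :=
  D.c1 a b * (D.ord (tl a) (hd b) + D.ord (hd b) (hd a)) + D.c2 a b * D.ord (hd a) (tl b)

/-- The invariant. -/
noncomputable def val (D : GaussDiagram n) : ℤ :=
  ∑ a ∈ D.arr, ∑ b ∈ D.arr, (D.sign a : ℤ) * D.sign b * D.k a b

theorem c1_congr (h : ∀ x y, D'.Same x y ↔ D.Same x y) (a b : ℕ) : D'.c1 a b = D.c1 a b := by
  unfold c1
  rw [propext (h (tl a) (hd a)), propext (h (hd a) (hd b)), propext (h (tl b) (hd b))]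

theorem c2_congr (h : ∀ x y, D'.Same x y ↔ D.Same x y) (a b : ℕ) : D'.c2 a b = D.c2 a b := by
  unfold c2
  rw [propext (h (tl a) (hd b)), propext (h (hd a) (tl b)), propext (h (tl a) (hd a))]

theorem arr_congr (h : ∀ x y, D'.Same x y ↔ D.Same x y) : D'.arr = D.arr := by
  ext a
  rw [mem_arr_same, mem_arr_same, h]

/-! ### Overcrossings Commute -/

theorem val_oc (h : OC D D') : D'.val = D.val := by
  obtain ⟨a, b, -, h1, h2, h3⟩ := h
  have hs := same_swap h1.same h2
  have ho := ord_swap h1 h2
  have ho1 : ∀ x y, D'.ord (tl x) (hd y) = D.ord (tl x) (hd y) := by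
    intro x y
    rw [ho, if_neg]
    rintro (⟨-, h⟩ | ⟨-, h⟩) <;> exact Bool.noConfusion (congrArg Prod.snd h)
  have ho2 : ∀ x y, D'.ord (hd x) y = D.ord (hd x) y := by
    intro x y
    rw [ho, if_neg]
    rintro (⟨h, -⟩ | ⟨h, -⟩) <;> exact Bool.noConfusion (congrArg Prod.snd h)
  unfold val
  rw [arr_congr hs, h3]
  apply Finset.sum_congr rfl
  intro x _
  apply Finset.sum_congr rfl
  intro y _
  unfold k
  rw [c1_congr hs, c2_congr hs, ho1, ho2, ho2]

/-! ### Self-crossing change -/

theorem k_self_right (D : GaussDiagram n) {a : ℕ} (h : D.Same (tl a) (hd a)) (c : ℕ) :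
    D.k c a = 0 := by
  unfold k c1 c2
  rw [ind_neg, ind_neg]
  · ring
  · rintro ⟨h1, h2, h3⟩
    exact h3 (h1.trans (h.symm.trans h2.symm))
  · rintro ⟨-, -, h3⟩
    exact h3 h

theorem c2_self (D : GaussDiagram n) {a : ℕ} (h : D.Same (tl a) (hd a)) (c : ℕ) :
    D.c2 a c = 0 := by
  unfold c2
  rw [ind_neg]
  rintro ⟨-, -, h3⟩
  exact h3 h

theorem val_sc (h : SC D D') : D'.val = D.val := by
  obtain ⟨a, h1, h2, h3, h4⟩ := h
  have h1' : D.Same (tl a) (hd a) := h1
  have hs := same_swap h1' h2
  have ho := ord_map (swap_swap (tl a) (hd a)) h2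
  have hself' : D'.Same (tl a) (hd a) := (hs _ _).2 h1'
  unfold val
  rw [arr_congr hs]
  apply Finset.sum_congr rfl
  intro x _
  apply Finset.sum_congr rfl
  intro y _
  by_cases hya : y = a
  · subst hya
    rw [k_self_right D h1', k_self_right D' hself']
    ring
  · have hy1 : Equiv.swap (tl a) (hd a) (hd y) = hd y := by
      apply Equiv.swap_apply_of_ne_of_ne
      · intro h
        exact hya (congrArg Prod.fst h)
      · intro h
        exact hya (congrArg Prod.fst h)
    have hy2 : Equiv.swap (tl a) (hd a) (tl y) = tl y := by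
      apply Equiv.swap_apply_of_ne_of_ne
      · intro h
        exact hya (congrArg Prod.fst h)
      · intro h
        exact hya (congrArg Prod.fst h)
    rw [h4 y hya]
    by_cases hxa : x = a
    · subst hxa
      rw [h3]
      unfold k
      rw [c1_congr hs, c2_congr hs, c2_self D h1', ho, ho, hy1, Equiv.swap_apply_left,
        Equiv.swap_apply_right, D.ord_symm (hd x) (hd y), D.ord_symm (tl x) (hd y)]
      push_cast
      ring
    · have hx1 : Equiv.swap (tl a) (hd a) (hd x) = hd x := by
        apply Equiv.swap_apply_of_ne_of_ne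
        · intro h
          exact hxa (congrArg Prod.fst h)
        · intro h
          exact hxa (congrArg Prod.fst h)
      have hx2 : Equiv.swap (tl a) (hd a) (tl x) = tl x := by
        apply Equiv.swap_apply_of_ne_of_ne
        · intro h
          exact hxa (congrArg Prod.fst h)
        · intro h
          exact hxa (congrArg Prod.fst h)
      rw [h4 x hxa]
      unfold k
      rw [c1_congr hs, c2_congr hs, ho, ho, ho, hx1, hx2, hy1, hy2]

/-! ### Deletion of arrows -/

section filter

variable {p : ArrowEnd → Prop} [DecidablePred p]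

theorem same_filter (h : ∀ i, D'.strand i = (D.strand i).filter (fun e => p e)) {x y : ArrowEnd}
    (hx : p x) (hy : p y) : D'.Same x y ↔ D.Same x y := by
  unfold Same
  apply exists_congr
  intro i
  rw [h i, List.mem_filter, List.mem_filter]
  simp [hx, hy]

theorem below_filter (h : ∀ i, D'.strand i = (D.strand i).filter (fun e => p e)) {x y : ArrowEnd}
    (hx : p x) (hy : p y) : D'.Below x y ↔ D.Below x y := by
  unfold Below
  apply exists_congr
  intro i
  rw [h i]
  constructor
  · intro h1
    exact h1.trans List.filter_sublist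
  · intro h1
    have h2 := h1.filter (fun e => decide (p e))
    simpa [hx, hy] using h2

theorem ord_filter (h : ∀ i, D'.strand i = (D.strand i).filter (fun e => p e)) {x y : ArrowEnd}
    (hx : p x) (hy : p y) : D'.ord x y = D.ord x y := by
  unfold ord
  rw [propext (below_filter h hx hy), propext (below_filter h hy hx)]

theorem k_filter (h : ∀ i, D'.strand i = (D.strand i).filter (fun e => p e)) {a b : ℕ}
    (h1 : p (tl a)) (h2 : p (hd a)) (h3 : p (tl b)) (h4 : p (hd b)) : D'.k a b = D.k a b := by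
  unfold k c1 c2
  rw [propext (same_filter h h1 h2), propext (same_filter h h1 h4), propext (same_filter h h3 h4),
    propext (same_filter h h2 h4), propext (same_filter h h2 h3), ord_filter h h1 h4,
    ord_filter h h4 h2, ord_filter h h2 h3]

end filter

theorem k_of_adjacent_left (D : GaussDiagram n) {a : ℕ} (h : D.Adjacent (tl a) (hd a)) (c : ℕ) :
    D.k a c = 0 := by
  by_cases hca : c = a
  · subst hca
    exact k_self_right D h.same _
  · unfold k
    rw [c2_self D h.same, h.ord_right (x := hd c) (fun h' => hca (congrArg Prod.fst h'))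
      (fun h' => hca (congrArg Prod.fst h')), D.ord_symm (hd a) (hd c)]
    ring

theorem val_r1 (h : R1 D D') : D'.val = D.val := by
  obtain ⟨a, h1, h2, h3⟩ := h
  have harr : D'.arr = D.arr.erase a := by
    ext c
    rw [mem_arr_tl, Finset.mem_erase, mem_arr_tl]
    simp only [h2, List.mem_filter, tl, ne_eq, decide_not, Bool.not_eq_eq_eq_not, Bool.not_true,
      decide_eq_false_iff_not, exists_and_right]
    tauto
  have key : ∀ c d, D.k c d = if c = a ∨ d = a then 0 else D'.k c d := by
    intro c d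
    by_cases hc : c = a
    · subst hc
      rw [if_pos (Or.inl rfl), k_of_adjacent_left D h1]
    · by_cases hd' : d = a
      · subst hd'
        rw [if_pos (Or.inr rfl), k_self_right D h1.same]
      · rw [if_neg (by tauto)]
        exact (k_filter (p := fun e => e.1 ≠ a) h2 hc hc hd' hd').symm
  have hzero1 : ∀ d, D.k a d = 0 := fun d => by rw [key, if_pos (Or.inl rfl)]
  have hzero2 : ∀ c, D.k c a = 0 := fun d => by rw [key, if_pos (Or.inr rfl)]
  unfold val
  rw [harr, h3]
  symm
  rw [← Finset.sum_subset (Finset.erase_subset a D.arr)]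
  · apply Finset.sum_congr rfl
    intro c hc
    rw [← Finset.sum_subset (Finset.erase_subset a D.arr)]
    · apply Finset.sum_congr rfl
      intro d hd'
      rw [key, if_neg]
      rintro (h | h)
      · exact Finset.ne_of_mem_erase hc h
      · exact Finset.ne_of_mem_erase hd' h
    · intro d hd1 hd2
      have : d = a := by
        by_contra hne
        exact hd2 (Finset.mem_erase.2 ⟨hne, hd1⟩)
      subst this
      rw [hzero2]
      ring
  · intro c hc1 hc2
    have : c = a := by
      by_contra hne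
      exact hc2 (Finset.mem_erase.2 ⟨hne, hc1⟩)
    subst this
    apply Finset.sum_eq_zero
    intro d _
    rw [hzero1]
    ring

theorem k_eq_zero_of_same (D : GaussDiagram n) {a b : ℕ} (h1 : D.Same (tl a) (tl b))
    (h2 : D.Same (hd a) (hd b)) : D.k a b = 0 := by
  unfold k c1 c2
  rw [ind_neg, ind_neg]
  · ring
  · rintro ⟨h3, h4, h5⟩
    exact h5 (h3.trans h2.symm)
  · rintro ⟨h3, h4, h5⟩
    exact h5 ((h1.symm.trans h3).trans h2)

theorem c1_left (D : GaussDiagram n) {a b : ℕ} (h1 : D.Same (tl a) (tl b))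
    (h2 : D.Same (hd a) (hd b)) (c : ℕ) : D.c1 a c = D.c1 b c := by
  have e1 : D.Same (tl a) (hd a) ↔ D.Same (tl b) (hd b) :=
    ⟨fun h => (h1.symm.trans h).trans h2, fun h => (h1.trans h).trans h2.symm⟩
  have e2 : D.Same (hd a) (hd c) ↔ D.Same (hd b) (hd c) :=
    ⟨fun h => h2.symm.trans h, fun h => h2.trans h⟩
  unfold c1
  rw [propext e1, propext e2]

theorem c1_right (D : GaussDiagram n) {a b : ℕ} (h1 : D.Same (tl a) (tl b))
    (h2 : D.Same (hd a) (hd b)) (c : ℕ) : D.c1 c a = D.c1 c b := by
  have e1 : D.Same (tl a) (hd a) ↔ D.Same (tl b) (hd b) :=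
    ⟨fun h => (h1.symm.trans h).trans h2, fun h => (h1.trans h).trans h2.symm⟩
  have e2 : D.Same (hd c) (hd a) ↔ D.Same (hd c) (hd b) :=
    ⟨fun h => h.trans h2, fun h => h.trans h2.symm⟩
  unfold c1
  rw [propext e1, propext e2]

theorem c2_left (D : GaussDiagram n) {a b : ℕ} (h1 : D.Same (tl a) (tl b))
    (h2 : D.Same (hd a) (hd b)) (c : ℕ) : D.c2 a c = D.c2 b c := by
  have e1 : D.Same (tl a) (hd a) ↔ D.Same (tl b) (hd b) :=
    ⟨fun h => (h1.symm.trans h).trans h2, fun h => (h1.trans h).trans h2.symm⟩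
  have e2 : D.Same (tl a) (hd c) ↔ D.Same (tl b) (hd c) :=
    ⟨fun h => h1.symm.trans h, fun h => h1.trans h⟩
  have e3 : D.Same (hd a) (tl c) ↔ D.Same (hd b) (tl c) :=
    ⟨fun h => h2.symm.trans h, fun h => h2.trans h⟩
  unfold c2
  rw [propext e1, propext e2, propext e3]

theorem c2_right (D : GaussDiagram n) {a b : ℕ} (h1 : D.Same (tl a) (tl b))
    (h2 : D.Same (hd a) (hd b)) (c : ℕ) : D.c2 c a = D.c2 c b := by
  have e2 : D.Same (tl c) (hd a) ↔ D.Same (tl c) (hd b) :=
    ⟨fun h => h.trans h2, fun h => h.trans h2.symm⟩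
  have e3 : D.Same (hd c) (tl a) ↔ D.Same (hd c) (tl b) :=
    ⟨fun h => h.trans h1, fun h => h.trans h1.symm⟩
  unfold c2
  rw [propext e2, propext e3]

theorem k_left (D : GaussDiagram n) {a b c : ℕ} (h1 : D.Adjacent (tl a) (tl b))
    (h2 : D.Adjacent (hd a) (hd b)) (hca : c ≠ a) (hcb : c ≠ b) : D.k a c = D.k b c := by
  have ne : ∀ {x y : ℕ} {u v : Bool}, x ≠ y → ((x, u) : ArrowEnd) ≠ (y, v) :=
    fun h h' => h (congrArg Prod.fst h')
  unfold k
  rw [D.c1_left h1.same h2.same, D.c2_left h1.same h2.same,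
    h1.ord_right (x := hd c) (ne hca) (ne hcb), h2.ord_left (x := hd c) (ne hca) (ne hcb),
    h2.ord_right (x := tl c) (ne hca) (ne hcb)]

theorem k_right (D : GaussDiagram n) {a b c : ℕ} (h1 : D.Adjacent (tl a) (tl b))
    (h2 : D.Adjacent (hd a) (hd b)) (hca : c ≠ a) (hcb : c ≠ b) : D.k c a = D.k c b := by
  have ne : ∀ {x y : ℕ} {u v : Bool}, x ≠ y → ((x, u) : ArrowEnd) ≠ (y, v) :=
    fun h h' => h (congrArg Prod.fst h')
  unfold k
  rw [D.c1_right h1.same h2.same, D.c2_right h1.same h2.same,
    h2.ord_left (x := tl c) (ne hca) (ne hcb), h2.ord_right (x := hd c) (ne hca) (ne hcb),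
    h1.ord_left (x := hd c) (ne hca) (ne hcb)]

theorem k_self (D : GaussDiagram n) (a : ℕ) : D.k a a = 0 := by
  unfold k c1 c2
  rw [ind_neg, ind_neg]
  · ring
  · rintro ⟨h1, -, h3⟩
    exact h3 h1
  · rintro ⟨h1, -, h3⟩
    exact h3 h1

theorem val_r2 (h : R2 D D') : D'.val = D.val := by
  obtain ⟨a, b, hab, hs, h1, h1', h2, h3⟩ := h
  have ha : a ∈ D.arr := by
    rw [mem_arr_same]
    exact h1.same.self_left
  have hb : b ∈ D.arr := by
    rw [mem_arr_same]
    exact h1.same.symm.self_left
  have harr : ∀ c, c ∈ D'.arr ↔ c ∈ D.arr ∧ c ≠ a ∧ c ≠ b := by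
    intro c
    rw [mem_arr_tl, mem_arr_tl]
    constructor
    · rintro ⟨i, hi⟩
      rw [h2 i, List.mem_filter] at hi
      exact ⟨⟨i, hi.1⟩, of_decide_eq_true hi.2⟩
    · rintro ⟨⟨i, hi⟩, hc⟩
      refine ⟨i, ?_⟩
      rw [h2 i, List.mem_filter]
      exact ⟨hi, decide_eq_true hc⟩
  have hins : D.arr = insert a (insert b D'.arr) := by
    ext c
    rw [Finset.mem_insert, Finset.mem_insert, harr]
    constructor
    · intro hc
      by_cases h4 : c = a
      · exact Or.inl h4
      · by_cases h5 : c = b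
        · exact Or.inr (Or.inl h5)
        · exact Or.inr (Or.inr ⟨hc, h4, h5⟩)
    · rintro (rfl | rfl | h4)
      · exact ha
      · exact hb
      · exact h4.1
  have hbn : b ∉ D'.arr := by
    rw [harr]
    rintro ⟨-, -, h4⟩
    exact h4 rfl
  have han : a ∉ insert b D'.arr := by
    rw [Finset.mem_insert, harr]
    rintro (h4 | ⟨-, h4, -⟩)
    · exact hab h4
    · exact h4 rfl
  unfold val
  rw [hins, h3]
  simp only [Finset.sum_insert han, Finset.sum_insert hbn]
  have hkab : D.k a b = 0 := D.k_eq_zero_of_same h1.same h1'.same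
  have hkba : D.k b a = 0 := D.k_eq_zero_of_same h1.same.symm h1'.same.symm
  have hs' : (D.sign b : ℤ) = -(D.sign a : ℤ) := by
    rw [hs]
    push_cast
    rfl
  have hcanc : (∑ d ∈ D'.arr, (D.sign a : ℤ) * D.sign d * D.k a d) +
      (∑ d ∈ D'.arr, (D.sign b : ℤ) * D.sign d * D.k b d) = 0 := by
    rw [← Finset.sum_add_distrib]
    apply Finset.sum_eq_zero
    intro d hd'
    rw [harr] at hd'
    rw [D.k_left h1 h1' hd'.2.1 hd'.2.2, hs']
    ring
  have hsum : ∀ c ∈ D'.arr, (D.sign c : ℤ) * D.sign a * D.k c a +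
      ((D.sign c : ℤ) * D.sign b * D.k c b + ∑ d ∈ D'.arr, (D.sign c : ℤ) * D.sign d * D.k c d) =
      ∑ d ∈ D'.arr, (D.sign c : ℤ) * D.sign d * D'.k c d := by
    intro c hc
    have hc' := (harr c).1 hc
    rw [D.k_right h1 h1' hc'.2.1 hc'.2.2, hs']
    have : ∀ d ∈ D'.arr, (D.sign c : ℤ) * D.sign d * D'.k c d =
        (D.sign c : ℤ) * D.sign d * D.k c d := by
      intro d hd'
      have hd'' := (harr d).1 hd'
      rw [k_filter (p := fun e => e.1 ≠ a ∧ e.1 ≠ b) h2 hc'.2 hc'.2 hd''.2 hd''.2]
    rw [Finset.sum_congr rfl this]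
    ring
  rw [Finset.sum_congr rfl hsum, k_self, k_self, hkab, hkba]
  linarith [hcanc]

/-! ### The third Reidemeister move -/

theorem val_r3 (h : R3 D D') : D'.val = D.val := by
  obtain ⟨x, y, z, δ, hxy, hxz, hyz, h1, h2, h3, h4, h5⟩ := h
  have o1 := h1.ord_eq
  have o2 := h2.ord_eq
  have o3 := h3.ord_eq
  have a1 := h1.adjacent
  have a2 := h2.adjacent
  have a3 := h3.adjacent
  have ne : ∀ {x y : ℕ} {u v : Bool}, x ≠ y → ((x, u) : ArrowEnd) ≠ (y, v) :=
    fun h h' => h (congrArg Prod.fst h')
  have neb : ∀ {x y : ℕ}, tl x ≠ hd y := fun h' => Bool.noConfusion (congrArg Prod.snd h')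
  have neb' : ∀ {x y : ℕ}, hd x ≠ tl y := fun h' => Bool.noConfusion (congrArg Prod.snd h')
  -- the three exchanges
  have a2' : (D.exchange (tl x) (tl y) a1.same).Adjacent (hd x) (tl z) :=
    a2.swap (fun _ => rfl) neb' neb' (ne hxz.symm) (ne hyz.symm)
  have a3' : (D.exchange (tl x) (tl y) a1.same).Adjacent (hd y) (hd z) :=
    a3.swap (fun _ => rfl) neb' neb' neb' neb'
  have a3'' : ((D.exchange (tl x) (tl y) a1.same).exchange (hd x) (tl z) a2'.same).Adjacent
      (hd y) (hd z) :=
    a3'.swap (fun _ => rfl) (ne hxy.symm) neb' (ne hxz.symm) neb'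
  have s1 := same_swap (D := D) (D' := D.exchange (tl x) (tl y) a1.same) a1.same (fun _ => rfl)
  have s2 := same_swap (D := D.exchange (tl x) (tl y) a1.same)
    (D' := (D.exchange (tl x) (tl y) a1.same).exchange (hd x) (tl z) a2'.same) a2'.same
    (fun _ => rfl)
  have s3 := same_swap (D' := D') a3''.same h4
  have hsame : ∀ u v, D'.Same u v ↔ D.Same u v := fun u v =>
    (s3 u v).trans ((s2 u v).trans (s1 u v))
  have r1 := ord_swap (D := D) (D' := D.exchange (tl x) (tl y) a1.same) a1 (fun _ => rfl)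
  have r2 := ord_swap (D := D.exchange (tl x) (tl y) a1.same)
    (D' := (D.exchange (tl x) (tl y) a1.same).exchange (hd x) (tl z) a2'.same) a2'
    (fun _ => rfl)
  have r3 := ord_swap (D' := D') a3'' h4
  -- the orders after the move
  have e1 : ∀ a b, D'.ord (tl a) (hd b) =
      D.ord (tl a) (hd b) - 2 * (if a = z then if b = x then D.ord (tl z) (hd x) else 0 else 0) := by
    intro a b
    rw [r3, if_neg (by
      rintro (⟨h, -⟩ | ⟨h, -⟩)
      · exact neb h
      · exact neb h), r2]
    have q : ∀ u v, u = tl a ∨ v = hd b →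
        (D.exchange (tl x) (tl y) a1.same).ord (tl a) (hd b) = D.ord (tl a) (hd b) := by
      intro _ _ _
      rw [r1, if_neg]
      rintro (⟨-, h⟩ | ⟨-, h⟩)
      · exact neb' h
      · exact neb' h
    have q' := q (tl a) (hd b) (Or.inl rfl)
    by_cases ha : a = z
    · subst ha
      by_cases hb : b = x
      · subst hb
        rw [if_pos (Or.inr ⟨rfl, rfl⟩), q', if_pos rfl, if_pos rfl]
        ring
      · rw [if_neg, q', if_pos rfl, if_neg hb]
        · ring
        · rintro (⟨h, -⟩ | ⟨-, h⟩)
          · exact neb h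
          · exact hb (congrArg Prod.fst h)
    · rw [if_neg, q', if_neg ha]
      · ring
      · rintro (⟨h, -⟩ | ⟨h, -⟩)
        · exact neb h
        · exact ha (congrArg Prod.fst h)
  have e2 : ∀ a b, D'.ord (hd b) (hd a) =
      D.ord (hd b) (hd a) - 2 * ((if a = z then if b = y then D.ord (hd y) (hd z) else 0 else 0) +
        (if a = y then if b = z then D.ord (hd z) (hd y) else 0 else 0)) := by
    intro a b
    have q : ((D.exchange (tl x) (tl y) a1.same).exchange (hd x) (tl z) a2'.same).ord
        (hd b) (hd a) = D.ord (hd b) (hd a) := by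
      rw [r2, if_neg (by
        rintro (⟨-, h⟩ | ⟨h, -⟩)
        · exact neb' h
        · exact neb' h), r1, if_neg (by
        rintro (⟨h, -⟩ | ⟨h, -⟩)
        · exact neb' h
        · exact neb' h)]
    rw [r3, q]
    by_cases ha : a = z
    · subst ha
      rw [if_pos rfl, if_neg (show ¬ a = y from hyz.symm)]
      by_cases hb : b = y
      · subst hb
        rw [if_pos (Or.inl ⟨rfl, rfl⟩), if_pos rfl]
        ring
      · rw [if_neg, if_neg hb]
        · ring
        · rintro (⟨h, -⟩ | ⟨-, h⟩)
          · exact hb (congrArg Prod.fst h)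
          · exact hyz.symm (congrArg Prod.fst h)
    · rw [if_neg (show ¬ a = z from ha)]
      by_cases ha' : a = y
      · subst ha'
        rw [if_pos rfl]
        by_cases hb : b = z
        · subst hb
          rw [if_pos (Or.inr ⟨rfl, rfl⟩), if_pos rfl]
          ring
        · rw [if_neg, if_neg hb]
          · ring
          · rintro (⟨-, h⟩ | ⟨h, -⟩)
            · exact ha (congrArg Prod.fst h)
            · exact hb (congrArg Prod.fst h)
      · rw [if_neg, if_neg ha']
        · ring
        · rintro (⟨-, h⟩ | ⟨-, h⟩)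
          · exact ha (congrArg Prod.fst h)
          · exact ha' (congrArg Prod.fst h)
  have e3 : ∀ a b, D'.ord (hd a) (tl b) =
      D.ord (hd a) (tl b) - 2 * (if a = x then if b = z then D.ord (hd x) (tl z) else 0 else 0) := by
    intro a b
    have := e1 b a
    rw [D'.ord_symm (tl b) (hd a), D.ord_symm (tl b) (hd a), D.ord_symm (tl z) (hd x), this]
    by_cases hb : b = z
    · by_cases ha : a = x
      · rw [if_pos hb, if_pos ha, if_pos ha, if_pos hb]
        ring
      · rw [if_pos hb, if_neg ha, if_neg ha]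
        ring
    · by_cases ha : a = x
      · rw [if_neg hb, if_pos ha, if_neg hb]
        ring
      · rw [if_neg hb, if_neg ha]
        ring
  -- membership
  have mx : x ∈ D.arr := by
    rw [mem_arr_same]
    exact a1.same.self_left
  have my : y ∈ D.arr := by
    rw [mem_arr_same]
    exact a1.same.symm.self_left
  have mz : z ∈ D.arr := by
    rw [mem_arr_same]
    exact a2.same.symm.self_left
  have hk : ∀ a b, D'.k a b = D.k a b - 2 *
      ((if a = z then if b = x then D.c1 z x * D.ord (tl z) (hd x) else 0 else 0) +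
      (if a = z then if b = y then D.c1 z y * D.ord (hd y) (hd z) else 0 else 0) +
      (if a = y then if b = z then D.c1 y z * D.ord (hd z) (hd y) else 0 else 0) +
      (if a = x then if b = z then D.c2 x z * D.ord (hd x) (tl z) else 0 else 0)) := by
    intro a b
    unfold k
    rw [c1_congr hsame, c2_congr hsame, e1, e2, e3]
    have t1 : D.c1 a b * (if a = z then if b = x then D.ord (tl z) (hd x) else 0 else 0) =
        (if a = z then if b = x then D.c1 z x * D.ord (tl z) (hd x) else 0 else 0) := by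
      split_ifs with g1 g2
      · rw [g1, g2]
      · ring
      · ring
    have t2 : D.c1 a b * (if a = z then if b = y then D.ord (hd y) (hd z) else 0 else 0) =
        (if a = z then if b = y then D.c1 z y * D.ord (hd y) (hd z) else 0 else 0) := by
      split_ifs with g1 g2
      · rw [g1, g2]
      · ring
      · ring
    have t3 : D.c1 a b * (if a = y then if b = z then D.ord (hd z) (hd y) else 0 else 0) =
        (if a = y then if b = z then D.c1 y z * D.ord (hd z) (hd y) else 0 else 0) := by
      split_ifs with g1 g2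
      · rw [g1, g2]
      · ring
      · ring
    have t4 : D.c2 a b * (if a = x then if b = z then D.ord (hd x) (tl z) else 0 else 0) =
        (if a = x then if b = z then D.c2 x z * D.ord (hd x) (tl z) else 0 else 0) := by
      split_ifs with g1 g2
      · rw [g1, g2]
      · ring
      · ring
    rw [← t1, ← t2, ← t3, ← t4]
    ring
  -- the sum of the corrections
  have hsum : ∀ (u v : ℕ) (c : ℤ), u ∈ D.arr → v ∈ D.arr →
      ∑ a ∈ D.arr, ∑ b ∈ D.arr, (D.sign a : ℤ) * D.sign b *
        (if a = u then if b = v then c else 0 else 0) = (D.sign u : ℤ) * D.sign v * c := by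
    intro u v c hu hv
    rw [Finset.sum_eq_single_of_mem u hu, Finset.sum_eq_single_of_mem v hv]
    · rw [if_pos rfl, if_pos rfl]
    · intro b _ hb
      rw [if_pos rfl, if_neg hb]
      ring
    · intro a _ ha
      apply Finset.sum_eq_zero
      intro b _
      rw [if_neg ha]
      ring
  have htot : D'.val = D.val - 2 *
      ((D.sign z : ℤ) * D.sign x * (D.c1 z x * D.ord (tl z) (hd x)) +
       (D.sign z : ℤ) * D.sign y * (D.c1 z y * D.ord (hd y) (hd z)) +
       (D.sign y : ℤ) * D.sign z * (D.c1 y z * D.ord (hd z) (hd y)) +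
       (D.sign x : ℤ) * D.sign z * (D.c2 x z * D.ord (hd x) (tl z))) := by
    unfold val
    rw [arr_congr hsame, h5, ← hsum z x _ mz mx, ← hsum z y _ mz my, ← hsum y z _ my mz,
      ← hsum x z _ mx mz, ← Finset.sum_add_distrib, ← Finset.sum_add_distrib,
      ← Finset.sum_add_distrib, Finset.mul_sum, ← Finset.sum_sub_distrib]
    apply Finset.sum_congr rfl
    intro a _
    rw [← Finset.sum_add_distrib, ← Finset.sum_add_distrib,
      ← Finset.sum_add_distrib, Finset.mul_sum, ← Finset.sum_sub_distrib]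
    apply Finset.sum_congr rfl
    intro b _
    rw [hk a b]
    ring
  have hc1 : D.c1 z x = D.c1 z y := by
    unfold c1
    have f1 : (D.Same (tl z) (hd z) ∧ D.Same (hd z) (hd x) ∧ ¬ D.Same (tl x) (hd x)) ↔
        (D.Same (tl z) (hd z) ∧ D.Same (hd z) (hd y) ∧ ¬ D.Same (tl y) (hd y)) := by
      constructor
      · rintro ⟨g1, g2, g3⟩
        refine ⟨g1, a3.same.symm, fun g4 => g3 ?_⟩
        exact ((a1.same.trans g4).trans a3.same).trans g2
      · rintro ⟨g1, g2, g3⟩
        refine ⟨g1, (a2.same.trans g1).symm, fun g4 => g3 ?_⟩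
        exact ((a1.same.symm.trans g4).trans (a2.same.trans g1)).trans g2
    rw [propext f1]
  have hc2 : D.c2 x z = D.c1 y z := by
    unfold c1 c2
    have f1 : (D.Same (tl x) (hd z) ∧ D.Same (hd x) (tl z) ∧ ¬ D.Same (tl x) (hd x)) ↔
        (D.Same (tl y) (hd y) ∧ D.Same (hd y) (hd z) ∧ ¬ D.Same (tl z) (hd z)) := by
      constructor
      · rintro ⟨g1, g2, g3⟩
        refine ⟨(a1.same.symm.trans g1).trans a3.same.symm, a3.same, fun g4 => g3 ?_⟩
        exact (g1.trans g4.symm).trans g2.symm
      · rintro ⟨g1, g2, g3⟩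
        refine ⟨(a1.same.trans g1).trans g2, a2.same, fun g4 => g3 ?_⟩
        exact ((g2.symm.trans g1.symm).trans (a1.same.symm.trans (g4.trans a2.same))).symm
    rw [propext f1]
  rw [htot, hc1, hc2, D.ord_symm (hd x) (tl z), D.ord_symm (hd y) (hd z), o2, o3]
  have sq : ∀ u : ℤˣ, (u : ℤ) * u = 1 := by
    intro u
    rcases Int.units_eq_one_or u with rfl | rfl <;> rfl
  push_cast
  have q1 := sq (D.sign x)
  have q2 := sq (D.sign y)
  have q3 := sq (D.sign z)
  have w1 : (D.sign z : ℤ) * D.sign x * ((δ : ℤ) * D.sign x * D.sign z) = δ := by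
    linear_combination (δ : ℤ) * (D.sign z * D.sign z) * q1 + (δ : ℤ) * q3
  have w2 : (D.sign z : ℤ) * D.sign y * ((δ : ℤ) * D.sign y * D.sign z) = δ := by
    linear_combination (δ : ℤ) * (D.sign z * D.sign z) * q2 + (δ : ℤ) * q3
  linear_combination (2 * D.c1 z y - 2 * D.c1 y z) * w1 - (2 * D.c1 z y - 2 * D.c1 y z) * w2

/-! ### Renaming of arrows -/

section relabel

variable {f : ℕ → ℕ}

theorem mem_relabel (hf : Set.InjOn f D.arrows)
    (h : ∀ i, D'.strand i = (D.strand i).map (fun e => (f e.1, e.2))) {a : ℕ} (ha : a ∈ D.arr)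
    (u : Bool) (i : Fin n) : (f a, u) ∈ D'.strand i ↔ (a, u) ∈ D.strand i := by
  rw [h i, List.mem_map]
  constructor
  · rintro ⟨⟨b, v⟩, h1, h2⟩
    simp only [Prod.mk.injEq] at h2
    obtain ⟨h2, rfl⟩ := h2
    have hb : b ∈ D.arr := D.mem_arr_of_mem h1
    have := hf ((D.mem_arr_tl b).1 hb) ((D.mem_arr_tl a).1 ha) h2
    rwa [← this]
  · intro h1
    exact ⟨_, h1, rfl⟩

theorem same_relabel (hf : Set.InjOn f D.arrows)
    (h : ∀ i, D'.strand i = (D.strand i).map (fun e => (f e.1, e.2))) {a b : ℕ} (ha : a ∈ D.arr)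
    (hb : b ∈ D.arr) (u v : Bool) : D'.Same (f a, u) (f b, v) ↔ D.Same (a, u) (b, v) := by
  unfold Same
  simp only [mem_relabel hf h ha, mem_relabel hf h hb]

theorem below_relabel (hf : Set.InjOn f D.arrows)
    (h : ∀ i, D'.strand i = (D.strand i).map (fun e => (f e.1, e.2))) {a b : ℕ} (ha : a ∈ D.arr)
    (hb : b ∈ D.arr) (u v : Bool) : D'.Below (f a, u) (f b, v) ↔ D.Below (a, u) (b, v) := by
  unfold Below
  apply exists_congr
  intro i
  rw [h i]
  constructor
  · intro h1
    rw [List.sublist_map_iff] at h1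
    obtain ⟨l, h2, h3⟩ := h1
    rcases l with _ | ⟨⟨c, w⟩, _ | ⟨⟨d, w'⟩, _ | ⟨g, l⟩⟩⟩
    · simp at h3
    · simp at h3
    · simp only [List.map_cons, List.map_nil, List.cons.injEq, Prod.mk.injEq, and_true] at h3
      obtain ⟨⟨h3, rfl⟩, h4, rfl⟩ := h3
      have hc : c ∈ D.arr := D.mem_arr_of_mem (h2.subset (List.mem_cons_self ..))
      have hd' : d ∈ D.arr := D.mem_arr_of_mem
        (h2.subset (List.mem_cons_of_mem _ (List.mem_cons_self ..)))
      have e1 := hf ((D.mem_arr_tl a).1 ha) ((D.mem_arr_tl c).1 hc) h3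
      have e2 := hf ((D.mem_arr_tl b).1 hb) ((D.mem_arr_tl d).1 hd') h4
      rwa [e1, e2]
    · simp at h3
  · intro h1
    exact h1.map (fun e : ArrowEnd => (f e.1, e.2))

theorem ord_relabel (hf : Set.InjOn f D.arrows)
    (h : ∀ i, D'.strand i = (D.strand i).map (fun e => (f e.1, e.2))) {a b : ℕ} (ha : a ∈ D.arr)
    (hb : b ∈ D.arr) (u v : Bool) : D'.ord (f a, u) (f b, v) = D.ord (a, u) (b, v) := by
  unfold ord
  rw [propext (below_relabel hf h ha hb u v), propext (below_relabel hf h hb ha v u)]

theorem k_relabel (hf : Set.InjOn f D.arrows)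
    (h : ∀ i, D'.strand i = (D.strand i).map (fun e => (f e.1, e.2))) {a b : ℕ} (ha : a ∈ D.arr)
    (hb : b ∈ D.arr) : D'.k (f a) (f b) = D.k a b := by
  unfold k c1 c2
  rw [propext (same_relabel hf h ha ha false true), propext (same_relabel hf h ha hb true true),
    propext (same_relabel hf h hb hb false true), propext (same_relabel hf h ha hb false true),
    propext (same_relabel hf h ha hb true false), ord_relabel hf h ha hb, ord_relabel hf h hb ha,
    ord_relabel hf h ha hb]

theorem val_relabel (h : Relabel D D') : D'.val = D.val := by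
  obtain ⟨f, hf, h1, h2⟩ := h
  have harr : D'.arr = D.arr.image f := by
    ext c
    rw [mem_arr_tl, Finset.mem_image]
    constructor
    · rintro ⟨i, hi⟩
      rw [h1 i, List.mem_map] at hi
      obtain ⟨⟨a, u⟩, h3, h4⟩ := hi
      exact ⟨a, D.mem_arr_of_mem h3, congrArg Prod.fst h4⟩
    · rintro ⟨a, ha, rfl⟩
      obtain ⟨i, hi⟩ := (D.mem_arr_tl a).1 ha
      exact ⟨i, (mem_relabel hf h1 ha false i).2 hi⟩
  have hinj : Set.InjOn f D.arr := by
    intro a ha b hb hab
    exact hf ((D.mem_arr_tl a).1 ha) ((D.mem_arr_tl b).1 hb) hab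
  unfold val
  rw [harr, Finset.sum_image hinj]
  apply Finset.sum_congr rfl
  intro a ha
  rw [Finset.sum_image hinj]
  apply Finset.sum_congr rfl
  intro b hb
  rw [h2 a ((D.mem_arr_tl a).1 ha), h2 b ((D.mem_arr_tl b).1 hb), k_relabel hf h1 ha hb]

end relabel

theorem val_move (h : Move D D') : D'.val = D.val := by
  rcases h with h | h | h | h | h | h
  · exact val_relabel h
  · exact val_r1 h
  · exact val_r2 h
  · exact val_r3 h
  · exact val_oc h
  · exact val_sc h

theorem val_eqv (h : Relation.EqvGen Move D D') : D'.val = D.val := by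
  induction h with
  | rel _ _ h => exact val_move h
  | refl _ => rfl
  | symm _ _ _ ih => exact ih.symm
  | trans _ _ _ _ _ ih1 ih2 => exact ih2.trans ih1

/-! ### Monotone diagrams -/

theorem Monotone.ord_pos {h : ℕ → ℕ} (hm : ∀ i, (D.strand i).Pairwise (fun e f => h e.1 < h f.1))
    {e f : ArrowEnd} (hb : D.Below e f) : h e.1 < h f.1 := by
  obtain ⟨i, hi⟩ := hb
  have := (hm i).sublist hi
  simpa using this

theorem below_or (D : GaussDiagram n) {e f : ArrowEnd} (h : D.Same e f) (hne : e ≠ f) :
    D.Below e f ∨ D.Below f e := by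
  obtain ⟨i, h1, h2⟩ := h
  obtain ⟨a, b, hab⟩ := List.append_of_mem h1
  rw [below_iff_left hab, below_iff_right hab]
  rw [hab] at h2
  simp only [List.mem_append, List.mem_cons] at h2
  rcases h2 with h2 | h2 | h2
  · exact Or.inr h2
  · exact absurd h2.symm hne
  · exact Or.inl h2

theorem val_monotone (hm : Monotone D) : D.val = 0 := by
  obtain ⟨h, hm⟩ := hm
  have hns : ∀ a, ¬ D.Same (tl a) (hd a) := by
    intro a hs
    rcases D.below_or hs (fun h' => Bool.noConfusion (congrArg Prod.snd h')) with h1 | h1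
    · exact absurd (Monotone.ord_pos hm h1) (lt_irrefl _)
    · exact absurd (Monotone.ord_pos hm h1) (lt_irrefl _)
  have hanti : ∀ a b, D.k b a = -D.k a b := by
    intro a b
    unfold k
    have h1 : ∀ a b, D.c1 a b = 0 := by
      intro a b
      unfold c1
      rw [ind_neg]
      rintro ⟨h, -⟩
      exact hns a h
    have h2 : D.c2 b a = D.c2 a b := by
      unfold c2
      congr 1
      apply propext
      constructor
      · rintro ⟨h3, h4, -⟩
        exact ⟨h4.symm, h3.symm, hns a⟩
      · rintro ⟨h3, h4, -⟩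
        exact ⟨h4.symm, h3.symm, hns b⟩
    rw [h1, h1, h2]
    by_cases h3 : D.c2 a b = 0
    · rw [h3]
      ring
    · have h4 : D.Same (tl a) (hd b) ∧ D.Same (hd a) (tl b) ∧ ¬ D.Same (tl a) (hd a) := by
        by_contra h4
        exact h3 (ind_neg h4)
      obtain ⟨h5, h6, -⟩ := h4
      have key : D.ord (hd b) (tl a) = -D.ord (hd a) (tl b) := by
        have hcontra : ∀ {x y : ℕ} {P : Prop}, x < y → y < x → P := by
          intro x y P h1 h2
          omega
        have mlt : ∀ (a b : ℕ) (u v : Bool), D.Below (a, u) (b, v) → h a < h b :=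
          fun _ _ _ _ g => Monotone.ord_pos hm g
        have g1 : D.Below (hd a) (tl b) ↔ D.Below (tl a) (hd b) := by
          constructor
          · intro g
            rcases D.below_or h5 (fun h' => Bool.noConfusion (congrArg Prod.snd h')) with g' | g'
            · exact g'
            · exact hcontra (mlt _ _ _ _ g) (mlt _ _ _ _ g')
          · intro g
            rcases D.below_or h6 (fun h' => Bool.noConfusion (congrArg Prod.snd h')) with g' | g'
            · exact g'
            · exact hcontra (mlt _ _ _ _ g) (mlt _ _ _ _ g')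
        have g2 : D.Below (tl b) (hd a) ↔ D.Below (hd b) (tl a) := by
          constructor
          · intro g
            rcases D.below_or h5 (fun h' => Bool.noConfusion (congrArg Prod.snd h')) with g' | g'
            · exact hcontra (mlt _ _ _ _ g) (mlt _ _ _ _ g')
            · exact g'
          · intro g
            rcases D.below_or h6 (fun h' => Bool.noConfusion (congrArg Prod.snd h')) with g' | g'
            · exact hcontra (mlt _ _ _ _ g) (mlt _ _ _ _ g')
            · exact g'
        unfold ord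
        rw [propext g1, propext g2]
        ring
      rw [key]
      ring
  have h2 : D.val = -D.val := by
    conv_lhs => unfold val
    rw [Finset.sum_comm]
    unfold val
    rw [← Finset.sum_neg_distrib]
    apply Finset.sum_congr rfl
    intro a _
    rw [← Finset.sum_neg_distrib]
    apply Finset.sum_congr rfl
    intro b _
    rw [hanti]
    ring
  linarith

end GaussDiagram

end Pool.Agent.H7.WSL
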