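import Pool.Agent.H7.WSL.Comm
import Pool.Agent.H7.WSL.Val

/-!
Concrete Gauss diagrams all of whose arrows have their ends on the first two strands.
-/

namespace Pool.Agent.H7.WSL

open GaussDiagram

variable {n : ℕ}

/-- Validity of the lists of ends on the two strands. -/
def Valid (L0 L1 : List ArrowEnd) : Prop :=
  (L0 ++ L1).Nodup ∧ ∀ e ∈ L0 ++ L1, (e.1, !e.2) ∈ L0 ++ L1

instance (L0 L1 : List ArrowEnd) : Decidable (Valid L0 L1) := by
  unfold Valid
  infer_instance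

/-- The list of ends on the strand number `i`. -/
def onStrand (L0 L1 : List ArrowEnd) (i : ℕ) : List ArrowEnd :=
  if i = 0 then L0 else if i = 1 then L1 else []

theorem mem_onStrand {L0 L1 : List ArrowEnd} {i : ℕ} {e : ArrowEnd} (h : e ∈ onStrand L0 L1 i) :
    (i = 0 ∧ e ∈ L0) ∨ (i = 1 ∧ e ∈ L1) := by
  unfold onStrand at h
  split_ifs at h with h1 h2
  · exact Or.inl ⟨h1, h⟩
  · exact Or.inr ⟨h2, h⟩
  · exact absurd h List.not_mem_nil

/-- The Gauss diagram on `n ≥ 2` strands with given lists of ends on the first two strands, all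
other strands being empty. -/
def two (n : ℕ) (hn : 2 ≤ n) (L0 L1 : List ArrowEnd) (s : ℕ → ℤˣ) (h : Valid L0 L1) :
    GaussDiagram n where
  strand i := onStrand L0 L1 i.1
  sign := s
  nodup i := by
    have := h.1
    rw [List.nodup_append] at this
    unfold onStrand
    split_ifs
    · exact this.1
    · exact this.2.1
    · exact List.nodup_nil
  disjoint i j hij e he he' := by
    have := h.1
    rw [List.nodup_append] at this
    rcases mem_onStrand he with ⟨h1, h2⟩ | ⟨h1, h2⟩ <;>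
      rcases mem_onStrand he' with ⟨h3, h4⟩ | ⟨h3, h4⟩
    · exact hij (Fin.ext (h1.trans h3.symm))
    · exact this.2.2 e h2 e h4 rfl
    · exact this.2.2 e h4 e h2 rfl
    · exact hij (Fin.ext (h1.trans h3.symm))
  complete a := by
    have key : ∀ e : ArrowEnd, (∃ i : Fin n, e ∈ onStrand L0 L1 i.1) ↔ e ∈ L0 ++ L1 := by
      intro e
      rw [List.mem_append]
      constructor
      · rintro ⟨i, hi⟩
        rcases mem_onStrand hi with ⟨-, h2⟩ | ⟨-, h2⟩
        · exact Or.inl h2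
        · exact Or.inr h2
      · rintro (h1 | h1)
        · exact ⟨⟨0, by omega⟩, by simpa [onStrand] using h1⟩
        · exact ⟨⟨1, by omega⟩, by simpa [onStrand] using h1⟩
    rw [key, key]
    exact ⟨fun h1 => h.2 _ h1, fun h1 => h.2 _ h1⟩

theorem onStrand_map (f : ArrowEnd → ArrowEnd) (L0 L1 : List ArrowEnd) (i : ℕ) :
    (onStrand L0 L1 i).map f = onStrand (L0.map f) (L1.map f) i := by
  unfold onStrand
  split_ifs <;> rfl

theorem onStrand_filter (f : ArrowEnd → Bool) (L0 L1 : List ArrowEnd) (i : ℕ) :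
    (onStrand L0 L1 i).filter f = onStrand (L0.filter f) (L1.filter f) i := by
  unfold onStrand
  split_ifs <;> rfl

/-- `x` is immediately below `y` in the list. -/
def nextIn (x y : ArrowEnd) : List ArrowEnd → Bool
  | [] => false
  | [_] => false
  | a :: b :: t => (a == x && b == y) || nextIn x y (b :: t)

theorem nextIn_sound {x y : ArrowEnd} : ∀ {L : List ArrowEnd}, nextIn x y L = true →
    ∃ l₁ l₂, L = l₁ ++ x :: y :: l₂
  | [], h => by simp [nextIn] at h
  | [_], h => by simp [nextIn] at h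
  | a :: b :: t, h => by
    simp only [nextIn, Bool.or_eq_true, Bool.and_eq_true, beq_iff_eq] at h
    rcases h with ⟨rfl, rfl⟩ | h
    · exact ⟨[], t, rfl⟩
    · obtain ⟨l₁, l₂, hl⟩ := nextIn_sound h
      exact ⟨a :: l₁, l₂, by rw [hl]; rfl⟩

/-- `x` is immediately below `y` on one of the two strands. -/
def nextB (L0 L1 : List ArrowEnd) (x y : ArrowEnd) : Bool := nextIn x y L0 || nextIn x y L1

theorem nextB_sound (hn : 2 ≤ n) {L0 L1 : List ArrowEnd} {s : ℕ → ℤˣ} (h : Valid L0 L1)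
    {x y : ArrowEnd} (hb : nextB L0 L1 x y = true) : (two n hn L0 L1 s h).Next x y := by
  unfold nextB at hb
  rw [Bool.or_eq_true] at hb
  rcases hb with hb | hb
  · obtain ⟨l₁, l₂, hl⟩ := nextIn_sound hb
    exact ⟨⟨0, by omega⟩, l₁, l₂, by simpa [two, onStrand] using hl⟩
  · obtain ⟨l₁, l₂, hl⟩ := nextIn_sound hb
    exact ⟨⟨1, by omega⟩, l₁, l₂, by simpa [two, onStrand] using hl⟩

/-- `x` and `y` are neighbours. -/
def adjB (L0 L1 : List ArrowEnd) (x y : ArrowEnd) : Bool := nextB L0 L1 x y || nextB L0 L1 y x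

theorem adjB_sound (hn : 2 ≤ n) {L0 L1 : List ArrowEnd} {s : ℕ → ℤˣ} (h : Valid L0 L1)
    {x y : ArrowEnd} (hb : adjB L0 L1 x y = true) : (two n hn L0 L1 s h).Adjacent x y := by
  unfold adjB at hb
  rw [Bool.or_eq_true] at hb
  exact hb.imp (nextB_sound hn h) (nextB_sound hn h)

/-- `a` is a self-arrow. -/
def selfB (L0 L1 : List ArrowEnd) (a : ℕ) : Bool :=
  (decide (tl a ∈ L0) && decide (hd a ∈ L0)) || (decide (tl a ∈ L1) && decide (hd a ∈ L1))

theorem selfB_sound (hn : 2 ≤ n) {L0 L1 : List ArrowEnd} {s : ℕ → ℤˣ} (h : Valid L0 L1)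
    {a : ℕ} (hb : selfB L0 L1 a = true) : (two n hn L0 L1 s h).IsSelf a := by
  unfold selfB at hb
  simp only [Bool.or_eq_true, Bool.and_eq_true, decide_eq_true_eq] at hb
  rcases hb with ⟨h1, h2⟩ | ⟨h1, h2⟩
  · exact ⟨⟨0, by omega⟩, by simpa [two, onStrand] using h1, by simpa [two, onStrand] using h2⟩
  · exact ⟨⟨1, by omega⟩, by simpa [two, onStrand] using h1, by simpa [two, onStrand] using h2⟩

/-- Equivalence of concrete diagrams. -/
def Eqv (n : ℕ) (s : ℕ → ℤˣ) (L0 L1 L0' L1' : List ArrowEnd) : Prop :=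
  ∀ (hn : 2 ≤ n) (h : Valid L0 L1) (h' : Valid L0' L1'),
    Relation.EqvGen Move (two n hn L0 L1 s h) (two n hn L0' L1' s h')

theorem Eqv.symm {s : ℕ → ℤˣ} {L0 L1 L0' L1' : List ArrowEnd} (h : Eqv n s L0 L1 L0' L1') :
    Eqv n s L0' L1' L0 L1 :=
  fun hn h1 h2 => .symm _ _ (h hn h2 h1)

theorem Eqv.trans {s : ℕ → ℤˣ} {L0 L1 L0' L1' L0'' L1'' : List ArrowEnd}
    (h : Eqv n s L0 L1 L0' L1') (hv : Valid L0' L1') (h' : Eqv n s L0' L1' L0'' L1'') :
    Eqv n s L0 L1 L0'' L1'' :=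
  fun hn h1 h2 => .trans _ _ _ (h hn h1 hv) (h' hn hv h2)

/-- The conditions for commuting two neighbouring ends. -/
def commB (L0 L1 L0' L1' : List ArrowEnd) (x y : ArrowEnd) : Bool :=
  adjB L0 L1 x y && decide (x.1 ≠ y.1) && (!x.2 || selfB L0 L1 x.1) && (!y.2 || selfB L0 L1 y.1) &&
    decide (L0' = L0.map (Equiv.swap x y)) && decide (L1' = L1.map (Equiv.swap x y))

theorem step_comm {s : ℕ → ℤˣ} {L0 L1 L0' L1' : List ArrowEnd} (x y : ArrowEnd)
    (hb : commB L0 L1 L0' L1' x y = true) : Eqv n s L0 L1 L0' L1' := by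
  intro hn h h'
  simp only [commB, Bool.and_eq_true, decide_eq_true_eq, Bool.or_eq_true, Bool.not_eq_true'] at hb
  obtain ⟨⟨⟨⟨⟨h1, h2⟩, h3⟩, h4⟩, h5⟩, h6⟩ := hb
  refine commute (adjB_sound hn h h1) h2 (h3.imp id (selfB_sound hn h))
    (h4.imp id (selfB_sound hn h)) ?_ rfl
  intro i
  show onStrand L0' L1' i.1 = (onStrand L0 L1 i.1).map _
  rw [onStrand_map, h5, h6]

/-- The conditions for the second Reidemeister move. -/
def r2B (s : ℕ → ℤˣ) (L0 L1 L0' L1' : List ArrowEnd) (a b : ℕ) : Bool :=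
  decide (a ≠ b) && decide (s b = -s a) && adjB L0 L1 (tl a) (tl b) && adjB L0 L1 (hd a) (hd b) &&
    decide (L0' = L0.filter (fun e => e.1 ≠ a ∧ e.1 ≠ b)) &&
    decide (L1' = L1.filter (fun e => e.1 ≠ a ∧ e.1 ≠ b))

theorem step_r2 {s : ℕ → ℤˣ} {L0 L1 L0' L1' : List ArrowEnd} (a b : ℕ)
    (hb : r2B s L0 L1 L0' L1' a b = true) : Eqv n s L0 L1 L0' L1' := by
  intro hn h h'
  simp only [r2B, Bool.and_eq_true, decide_eq_true_eq] at hb
  obtain ⟨⟨⟨⟨⟨h1, h2⟩, h3⟩, h4⟩, h5⟩, h6⟩ := hb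
  refine .rel _ _ (Or.inr (Or.inr (Or.inl ⟨a, b, h1, h2, adjB_sound hn h h3,
    adjB_sound hn h h4, ?_, rfl⟩)))
  intro i
  show onStrand L0' L1' i.1 = (onStrand L0 L1 i.1).filter _
  rw [onStrand_filter, h5, h6]

/-- `NextSigned` for concrete diagrams. -/
def nextSignedB (L0 L1 : List ArrowEnd) (ε : ℤˣ) (x y : ArrowEnd) : Bool :=
  if ε = 1 then nextB L0 L1 x y else nextB L0 L1 y x

theorem nextSignedB_sound (hn : 2 ≤ n) {L0 L1 : List ArrowEnd} {s : ℕ → ℤˣ} (h : Valid L0 L1)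
    {ε : ℤˣ} {x y : ArrowEnd} (hb : nextSignedB L0 L1 ε x y = true) :
    (two n hn L0 L1 s h).NextSigned ε x y := by
  unfold nextSignedB at hb
  unfold NextSigned
  split_ifs at hb ⊢
  · exact nextB_sound hn h hb
  · exact nextB_sound hn h hb

/-- The conditions for the third Reidemeister move. -/
def r3B (s : ℕ → ℤˣ) (L0 L1 L0' L1' : List ArrowEnd) (x y z : ℕ) (δ : ℤˣ) : Bool :=
  decide (x ≠ y) && decide (x ≠ z) && decide (y ≠ z) &&
    nextSignedB L0 L1 (δ * s x * s y) (tl x) (tl y) &&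
    nextSignedB L0 L1 (δ * s x * s z) (hd x) (tl z) &&
    nextSignedB L0 L1 (δ * s y * s z) (hd y) (hd z) &&
    decide (L0' = ((L0.map (Equiv.swap (tl x) (tl y))).map (Equiv.swap (hd x) (tl z))).map
      (Equiv.swap (hd y) (hd z))) &&
    decide (L1' = ((L1.map (Equiv.swap (tl x) (tl y))).map (Equiv.swap (hd x) (tl z))).map
      (Equiv.swap (hd y) (hd z)))

theorem step_r3 {s : ℕ → ℤˣ} {L0 L1 L0' L1' : List ArrowEnd} (x y z : ℕ) (δ : ℤˣ)
    (hb : r3B s L0 L1 L0' L1' x y z δ = true) : Eqv n s L0 L1 L0' L1' := by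
  intro hn h h'
  simp only [r3B, Bool.and_eq_true, decide_eq_true_eq] at hb
  obtain ⟨⟨⟨⟨⟨⟨⟨h1, h2⟩, h3⟩, h4⟩, h5⟩, h6⟩, h7⟩, h8⟩ := hb
  refine .rel _ _ (Or.inr (Or.inr (Or.inr (Or.inl ⟨x, y, z, δ, h1, h2, h3,
    nextSignedB_sound hn h h4, nextSignedB_sound hn h h5, nextSignedB_sound hn h h6, ?_, rfl⟩))))
  intro i
  show onStrand L0' L1' i.1 = (((onStrand L0 L1 i.1).map _).map _).map _
  rw [onStrand_map, onStrand_map, onStrand_map, h7, h8]

/-- Stacking concrete diagrams. -/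
theorem stack_two (hn : 2 ≤ n) {L0 L1 M0 M1 : List ArrowEnd} {s t u : ℕ → ℤˣ} (h : Valid L0 L1)
    (h' : Valid M0 M1) (hv : Valid (L0.map ev ++ M0.map od) (L1.map ev ++ M1.map od))
    (hs : ∀ e ∈ L0 ++ L1, u (2 * e.1) = s e.1) (ht : ∀ e ∈ M0 ++ M1, u (2 * e.1 + 1) = t e.1) :
    Relation.EqvGen Move (stack (two n hn L0 L1 s h) (two n hn M0 M1 t h'))
      (two n hn (L0.map ev ++ M0.map od) (L1.map ev ++ M1.map od) u hv) := by
  refine .rel _ _ (Or.inl ⟨id, Function.injective_id.injOn, ?_, ?_⟩)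
  · intro i
    show onStrand _ _ i.1 = ((onStrand L0 L1 i.1).map ev ++ (onStrand M0 M1 i.1).map od).map _
    unfold onStrand
    split_ifs
    · exact (List.map_id _).symm
    · exact (List.map_id _).symm
    · rfl
  · intro a ha
    rw [arrows_stack] at ha
    show u a = if a % 2 = 0 then s (a / 2) else t (a / 2)
    rcases ha with ⟨ha, ⟨i, hi⟩⟩ | ⟨ha, ⟨i, hi⟩⟩
    · rw [if_pos ha]
      have hm : tl (a / 2) ∈ L0 ++ L1 := by
        rw [List.mem_append]
        rcases mem_onStrand hi with ⟨-, h2⟩ | ⟨-, h2⟩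
        · exact Or.inl h2
        · exact Or.inr h2
      have := hs _ hm
      rwa [show 2 * (tl (a / 2)).1 = a by show 2 * (a / 2) = a; omega] at this
    · rw [if_neg (by omega)]
      have hm : tl (a / 2) ∈ M0 ++ M1 := by
        rw [List.mem_append]
        rcases mem_onStrand hi with ⟨-, h2⟩ | ⟨-, h2⟩
        · exact Or.inl h2
        · exact Or.inr h2
      have := ht _ hm
      rwa [show 2 * (tl (a / 2)).1 + 1 = a by show 2 * (a / 2) + 1 = a; omega] at this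

/-- The empty concrete diagram is trivial. -/
theorem two_nil (hn : 2 ≤ n) (s : ℕ → ℤˣ) (h : Valid [] []) :
    Relation.EqvGen Move (two n hn [] [] s h) (trivialDiagram n) := by
  refine .rel _ _ (Or.inl ⟨id, Function.injective_id.injOn, ?_, ?_⟩)
  · intro i
    show [] = (onStrand [] [] i.1).map _
    unfold onStrand
    split_ifs <;> rfl
  · rintro a ⟨i, hi⟩
    rcases mem_onStrand hi with ⟨-, h2⟩ | ⟨-, h2⟩
    · exact absurd h2 List.not_mem_nil
    · exact absurd h2 List.not_mem_nil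

/-! ### Evaluation of the invariant -/

theorem same_two (hn : 2 ≤ n) {L0 L1 : List ArrowEnd} {s : ℕ → ℤˣ} (h : Valid L0 L1)
    (x y : ArrowEnd) :
    (two n hn L0 L1 s h).Same x y ↔ (x ∈ L0 ∧ y ∈ L0) ∨ (x ∈ L1 ∧ y ∈ L1) := by
  constructor
  · rintro ⟨i, h1, h2⟩
    rcases mem_onStrand h1 with ⟨h3, h4⟩ | ⟨h3, h4⟩ <;>
      rcases mem_onStrand h2 with ⟨h5, h6⟩ | ⟨h5, h6⟩
    · exact Or.inl ⟨h4, h6⟩
    · omega
    · omega
    · exact Or.inr ⟨h4, h6⟩
  · rintro (⟨h1, h2⟩ | ⟨h1, h2⟩)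
    · exact ⟨⟨0, by omega⟩, by simpa [two, onStrand] using h1, by simpa [two, onStrand] using h2⟩
    · exact ⟨⟨1, by omega⟩, by simpa [two, onStrand] using h1, by simpa [two, onStrand] using h2⟩

theorem below_two (hn : 2 ≤ n) {L0 L1 : List ArrowEnd} {s : ℕ → ℤˣ} (h : Valid L0 L1)
    (x y : ArrowEnd) :
    (two n hn L0 L1 s h).Below x y ↔ [x, y].Sublist L0 ∨ [x, y].Sublist L1 := by
  constructor
  · rintro ⟨i, h1⟩
    have h2 : [x, y].Sublist (onStrand L0 L1 i.1) := h1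
    unfold onStrand at h2
    split_ifs at h2
    · exact Or.inl h2
    · exact Or.inr h2
    · simp at h2
  · rintro (h1 | h1)
    · exact ⟨⟨0, by omega⟩, by simpa [two, onStrand] using h1⟩
    · exact ⟨⟨1, by omega⟩, by simpa [two, onStrand] using h1⟩

end Pool.Agent.H7.WSL
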