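import Pool.Agent.H7.WSL.Chain
import Pool.Agent.H7.WSL.Hom

/-!
A unit of `wSL_n^sc` none of whose nonzero powers is a welded pure braid.
-/

namespace Pool.Agent.H7.WSL

open GaussDiagram

variable {n : ℕ}

/-- Decidable version of `Same`. -/
def sameB (L0 L1 : List ArrowEnd) (x y : ArrowEnd) : Bool :=
  (decide (x ∈ L0) && decide (y ∈ L0)) || (decide (x ∈ L1) && decide (y ∈ L1))

/-- Decidable version of `Below`. -/
def belowB (L0 L1 : List ArrowEnd) (x y : ArrowEnd) : Bool :=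
  decide ([x, y].Sublist L0) || decide ([x, y].Sublist L1)

/-- Decidable version of `ord`. -/
def ordB (L0 L1 : List ArrowEnd) (x y : ArrowEnd) : ℤ :=
  (if belowB L0 L1 x y then 1 else 0) - (if belowB L0 L1 y x then 1 else 0)

/-- Decidable version of `k`. -/
def kB (L0 L1 : List ArrowEnd) (a b : ℕ) : ℤ :=
  (if sameB L0 L1 (tl a) (hd a) && (sameB L0 L1 (hd a) (hd b) && !sameB L0 L1 (tl b) (hd b))
    then 1 else 0) * (ordB L0 L1 (tl a) (hd b) + ordB L0 L1 (hd b) (hd a)) +
  (if sameB L0 L1 (tl a) (hd b) && (sameB L0 L1 (hd a) (tl b) && !sameB L0 L1 (tl a) (hd a))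
    then 1 else 0) * ordB L0 L1 (hd a) (tl b)

/-- Decidable version of `val`. -/
def valB (L0 L1 : List ArrowEnd) (s : ℕ → ℤˣ) : ℤ :=
  ∑ a ∈ ((L0 ++ L1).map Prod.fst).toFinset, ∑ b ∈ ((L0 ++ L1).map Prod.fst).toFinset,
    (s a : ℤ) * s b * kB L0 L1 a b

theorem sameB_iff (hn : 2 ≤ n) {L0 L1 : List ArrowEnd} {s : ℕ → ℤˣ} (h : Valid L0 L1)
    (x y : ArrowEnd) : (two n hn L0 L1 s h).Same x y ↔ sameB L0 L1 x y = true := by
  rw [same_two]
  simp [sameB]

theorem belowB_iff (hn : 2 ≤ n) {L0 L1 : List ArrowEnd} {s : ℕ → ℤˣ} (h : Valid L0 L1)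
    (x y : ArrowEnd) : (two n hn L0 L1 s h).Below x y ↔ belowB L0 L1 x y = true := by
  rw [below_two]
  simp [belowB]

theorem ordB_eq (hn : 2 ≤ n) {L0 L1 : List ArrowEnd} {s : ℕ → ℤˣ} (h : Valid L0 L1)
    (x y : ArrowEnd) : (two n hn L0 L1 s h).ord x y = ordB L0 L1 x y := by
  unfold ord ordB
  rw [propext (belowB_iff hn h x y), propext (belowB_iff hn h y x)]
  congr

theorem ind_bool (b : Bool) : ind (b = true) = if b then 1 else 0 := by
  cases b
  · exact ind_neg (by simp)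
  · exact ind_pos rfl

theorem kB_eq (hn : 2 ≤ n) {L0 L1 : List ArrowEnd} {s : ℕ → ℤˣ} (h : Valid L0 L1)
    (a b : ℕ) : (two n hn L0 L1 s h).k a b = kB L0 L1 a b := by
  have h1 : (two n hn L0 L1 s h).c1 a b = if sameB L0 L1 (tl a) (hd a) &&
      (sameB L0 L1 (hd a) (hd b) && !sameB L0 L1 (tl b) (hd b)) then 1 else 0 := by
    rw [← ind_bool]
    unfold c1
    congr 1
    apply propext
    rw [sameB_iff, sameB_iff, sameB_iff]
    simp
  have h2 : (two n hn L0 L1 s h).c2 a b = if sameB L0 L1 (tl a) (hd b) &&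
      (sameB L0 L1 (hd a) (tl b) && !sameB L0 L1 (tl a) (hd a)) then 1 else 0 := by
    rw [← ind_bool]
    unfold c2
    congr 1
    apply propext
    rw [sameB_iff, sameB_iff, sameB_iff]
    simp
  unfold k kB
  rw [h1, h2, ordB_eq, ordB_eq, ordB_eq]

theorem valB_eq (hn : 2 ≤ n) {L0 L1 : List ArrowEnd} {s : ℕ → ℤˣ} (h : Valid L0 L1) :
    (two n hn L0 L1 s h).val = valB L0 L1 s := by
  have harr : (two n hn L0 L1 s h).arr = ((L0 ++ L1).map Prod.fst).toFinset := by
    ext a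
    rw [mem_arr_aux]
    simp only [List.mem_toFinset, List.mem_map, List.mem_append, Prod.exists]
    constructor
    · rintro ⟨i, b, hi⟩
      refine ⟨a, b, ?_, rfl⟩
      rcases mem_onStrand hi with ⟨-, h2⟩ | ⟨-, h2⟩
      · exact Or.inl h2
      · exact Or.inr h2
    · rintro ⟨c, b, hb, rfl⟩
      rcases hb with hb | hb
      · exact ⟨⟨0, by omega⟩, b, by simpa [two, onStrand] using hb⟩
      · exact ⟨⟨1, by omega⟩, b, by simpa [two, onStrand] using hb⟩
  unfold val valB
  rw [harr]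
  apply Finset.sum_congr rfl
  intro a _
  apply Finset.sum_congr rfl
  intro b _
  rw [kB_eq]
  rfl

/-- The signs of the arrows of the unit. -/
def usign (ε : ℤˣ) (a : ℕ) : ℤˣ := if a = 0 then ε else if a = 1 then 1 else -1

/-- The Gauss diagram of the unit: the first strand carries, from bottom to top, the tail of the
arrow `0`, the head of `1`, the head of `0` and the head of `2`; the second strand carries the
tails of `1` and `2`. The signs of the arrows `0`, `1`, `2` are `ε`, `1`, `-1`. -/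
def unitDiagram (n : ℕ) (hn : 2 ≤ n) (ε : ℤˣ) : GaussDiagram n :=
  two n hn [tl 0, hd 1, hd 0, hd 2] [tl 1, tl 2] (usign ε) (by decide)

theorem val_unit (hn : 2 ≤ n) (ε : ℤˣ) : (unitDiagram n hn ε).val = 2 * (ε : ℤ) := by
  unfold unitDiagram
  rw [valB_eq]
  rcases Int.units_eq_one_or ε with rfl | rfl
  · decide
  · decide

theorem unit_mul (hn : 2 ≤ n) (ε : ℤˣ) :
    WSLsc.mk (unitDiagram n hn ε) * WSLsc.mk (unitDiagram n hn (-ε)) = 1 := by
  rw [mk_mul, one_def]
  apply mk_eq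
  have hv : Valid ([tl 0, hd 1, hd 0, hd 2].map ev ++ [tl 0, hd 1, hd 0, hd 2].map od)
      ([tl 1, tl 2].map ev ++ [tl 1, tl 2].map od) := by decide
  have h1 := stack_two (n := n) hn (L0 := [tl 0, hd 1, hd 0, hd 2]) (L1 := [tl 1, tl 2])
    (M0 := [tl 0, hd 1, hd 0, hd 2]) (M1 := [tl 1, tl 2]) (s := usign ε) (t := usign (-ε))
    (u := sg ε) (by decide) (by decide) hv
    (by rcases Int.units_eq_one_or ε with rfl | rfl <;> decide)
    (by rcases Int.units_eq_one_or ε with rfl | rfl <;> decide)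
  refine .trans _ _ _ h1 (.trans _ _ _ ?_ (two_nil hn (sg ε) (by decide)))
  rcases Int.units_eq_one_or ε with rfl | rfl
  · exact chain_pos hn hv (by decide)
  · exact chain_neg hn hv (by decide)

/-- The unit. -/
def theUnit (n : ℕ) (hn : 2 ≤ n) : (WSLsc n)ˣ where
  val := WSLsc.mk (unitDiagram n hn 1)
  inv := WSLsc.mk (unitDiagram n hn (-1))
  val_inv := unit_mul hn 1
  inv_val := unit_mul hn (-1)

theorem theUnit_zpow (hn : 2 ≤ n) (k : ℤ) :
    valHom n ((theUnit n hn ^ k : (WSLsc n)ˣ) : WSLsc n) = Multiplicative.ofAdd (2 * k) := by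
  have h1 : Units.map (valHom n) (theUnit n hn ^ k) = Units.map (valHom n) (theUnit n hn) ^ k :=
    map_zpow _ _ _
  have h2 := congrArg Units.val h1
  rw [Units.coe_map] at h2
  have h3 : valHom n ((theUnit n hn : (WSLsc n)ˣ) : WSLsc n) = Multiplicative.ofAdd 2 := by
    show valHom n (WSLsc.mk (unitDiagram n hn 1)) = _
    rw [valHom_mk, val_unit]
    rfl
  have h4 : Units.map (valHom n) (theUnit n hn) = toUnits (Multiplicative.ofAdd (2 : ℤ)) := by
    ext
    exact congrArg Multiplicative.toAdd h3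
  rw [h4, ← map_zpow, ← ofAdd_zsmul] at h2
  rw [show (2 * k : ℤ) = k • (2 : ℤ) by rw [smul_eq_mul]; ring]
  exact h2

end Pool.Agent.H7.WSL
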